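import Pool.Agent.NWE.Main

set_option autoImplicit false

/-!
# Circuits on partly hidden inputs: Kleene's three-valued logic

A circuit with NOT gates anywhere is evaluated on a partly hidden input in Kleene's three-valued
logic. The evaluation is simulated by a circuit without NOT gates on the literals of twice the size.
-/

namespace Pool.Agent.NWE

open Finset Pool.Agent.NegLim

/-- Kleene's AND; the value `none` is the unknown value. -/
def kAnd : Option Bool → Option Bool → Option Bool
  | some false, _ => some false
  | some true, b => b
  | none, some false => some false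
  | none, _ => none

/-- Kleene's OR. -/
def kOr : Option Bool → Option Bool → Option Bool
  | some true, _ => some true
  | some false, b => b
  | none, some true => some true
  | none, _ => none

/-- Kleene's NOT. -/
def kNot : Option Bool → Option Bool
  | some b => some (!b)
  | none => none

/-- The value of a wire at the partly hidden input `p`, if `vals` lists the values of the gates
computed so far. -/
def wireK {V : Type} (p : V → Option Bool) (vals : List (Option Bool)) : Wire V → Option Bool
  | .var v => p v
  | .const b => some b
  | .gate i => vals.getD i (some false)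

/-- The value of a gate at the partly hidden input `p`. -/
def gateK {V : Type} (p : V → Option Bool) (vals : List (Option Bool)) : Gate V → Option Bool
  | .and a b => kAnd (wireK p vals a) (wireK p vals b)
  | .or a b => kOr (wireK p vals a) (wireK p vals b)
  | .not a => kNot (wireK p vals a)

/-- The values of the gates of a circuit at the partly hidden input `p`. -/
def valsK {V : Type} (p : V → Option Bool) : Circuit V → List (Option Bool) → List (Option Bool)
  | [], vals => vals
  | g :: C, vals => valsK p C (vals ++ [gateK p vals g])

/-- The value of the wire `a` of the circuit `C` at the partly hidden input `p`, in Kleene's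
three-valued logic. -/
def kleene {V : Type} (C : Circuit V) (p : V → Option Bool) (a : Wire V) : Option Bool :=
  wireK p (valsK p C []) a

/-- The input `x` with the zeros in `U` hidden, except those in `Z`. -/
def hide {ι : Type} [DecidableEq ι] (U Z : Finset ι) (x : ι → Bool) (v : ι) : Option Bool :=
  if v ∈ U ∧ v ∉ Z ∧ x v = false then none else some (x v)

section

variable {V : Type}

/-- The list of the values on two rails. -/
def flat : List (Option Bool) → List Bool
  | [] => []
  | o :: l => (o == some true) :: (o == some false) :: flat l

lemma flat_append (l l' : List (Option Bool)) : flat (l ++ l') = flat l ++ flat l' := by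
  induction l with
  | nil => rfl
  | cons o l ih => simp [flat, ih]

lemma flat_length (l : List (Option Bool)) : (flat l).length = 2 * l.length := by
  induction l with
  | nil => rfl
  | cons o l ih => simp [flat, ih]; ring

lemma flat_getD (l : List (Option Bool)) (l' : List Bool) (i : ℕ) (hi : i < l.length) (b : Bool) :
    (flat l ++ l').getD (2 * i + (if b then 0 else 1)) false = (l.getD i (some false) == some b) := by
  induction l generalizing i with
  | nil => simp at hi
  | cons o l ih =>
    cases i with
    | zero => cases b <;> simp [flat]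
    | succ i =>
      have h1 := ih i (by simpa using hi)
      have h2 : 2 * (i + 1) + (if b then 0 else 1) = (2 * i + (if b then 0 else 1)) + 1 + 1 := by
        ring
      rw [h2]
      simpa [flat] using h1

/-- The rail `b` of a wire, after `k` gates of the original circuit. -/
def railW (k : ℕ) (b : Bool) : Wire V → Wire (V ⊕ V)
  | .var v => .var (if b then .inl v else .inr v)
  | .const c => .const (c == b)
  | .gate i => if i < k then .gate (2 * i + (if b then 0 else 1)) else .const (!b)

/-- The values of the literals at a partly hidden input. -/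
def railIn (p : V → Option Bool) : V ⊕ V → Bool :=
  Sum.elim (fun v => p v == some true) fun v => p v == some false

lemma railW_val (p : V → Option Bool) (l : List (Option Bool)) (l' : List Bool) (b : Bool)
    (a : Wire V) :
    (railW l.length b a).val (railIn p) (flat l ++ l') = (wireK p l a == some b) := by
  cases a with
  | var v => cases b <;> simp [railW, Wire.val, railIn, wireK]
  | const c => cases b <;> cases c <;> simp [railW, Wire.val, wireK]
  | gate i =>
    by_cases hi : i < l.length
    · simp only [railW, if_pos hi, Wire.val, wireK]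
      exact flat_getD l l' i hi b
    · have h1 : l.getD i (some false) = some false := by
        rw [List.getD_eq_default _ _ (by omega)]
      simp only [railW, if_neg hi, Wire.val, wireK, h1]
      cases b <;> simp

/-- The rail `true` of a gate. -/
def gateT (k : ℕ) : Gate V → Gate (V ⊕ V)
  | .and a b => .and (railW k true a) (railW k true b)
  | .or a b => .or (railW k true a) (railW k true b)
  | .not a => .or (railW k false a) (railW k false a)

/-- The rail `false` of a gate. -/
def gateF (k : ℕ) : Gate V → Gate (V ⊕ V)
  | .and a b => .or (railW k false a) (railW k false b)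
  | .or a b => .and (railW k false a) (railW k false b)
  | .not a => .or (railW k true a) (railW k true a)

/-- The circuit without NOT gates on the literals. -/
def dual : ℕ → Circuit V → Circuit (V ⊕ V)
  | _, [] => []
  | k, g :: C => gateT k g :: gateF k g :: dual (k + 1) C

lemma gateT_val (p : V → Option Bool) (l : List (Option Bool)) (l' : List Bool) (g : Gate V) :
    (gateT l.length g).val (railIn p) (flat l ++ l') = (gateK p l g == some true) := by
  cases g with
  | and a b =>
    simp only [gateT, Gate.val, railW_val, gateK]
    rcases wireK p l a with _ | (_ | _) <;> rcases wireK p l b with _ | (_ | _) <;> rfl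
  | or a b =>
    simp only [gateT, Gate.val, railW_val, gateK]
    rcases wireK p l a with _ | (_ | _) <;> rcases wireK p l b with _ | (_ | _) <;> rfl
  | not a =>
    simp only [gateT, Gate.val, railW_val, gateK]
    rcases wireK p l a with _ | (_ | _) <;> rfl

lemma gateF_val (p : V → Option Bool) (l : List (Option Bool)) (l' : List Bool) (g : Gate V) :
    (gateF l.length g).val (railIn p) (flat l ++ l') = (gateK p l g == some false) := by
  cases g with
  | and a b =>
    simp only [gateF, Gate.val, railW_val, gateK]
    rcases wireK p l a with _ | (_ | _) <;> rcases wireK p l b with _ | (_ | _) <;> rfl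
  | or a b =>
    simp only [gateF, Gate.val, railW_val, gateK]
    rcases wireK p l a with _ | (_ | _) <;> rcases wireK p l b with _ | (_ | _) <;> rfl
  | not a =>
    simp only [gateF, Gate.val, railW_val, gateK]
    rcases wireK p l a with _ | (_ | _) <;> rfl

lemma dual_vals (p : V → Option Bool) (C : Circuit V) (l : List (Option Bool)) :
    gateVals (railIn p) (dual l.length C) (flat l) = flat (valsK p C l) := by
  induction C generalizing l with
  | nil => rfl
  | cons g C ih =>
    have h1 := gateT_val p l [] g
    rw [List.append_nil] at h1
    have h2 := gateF_val p l [gateK p l g == some true] g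
    have h3 := ih (l ++ [gateK p l g])
    simp only [List.length_append, List.length_cons, List.length_nil, Nat.zero_add] at h3
    rw [flat_append] at h3
    simp only [dual, gateVals, valsK]
    rw [← h3, h1, h2]
    simp [flat]

lemma dual_size (k : ℕ) (C : Circuit V) : (dual k C).size = 2 * C.size := by
  unfold Circuit.size
  induction C generalizing k with
  | nil => rfl
  | cons g C ih =>
    simp only [dual, List.length_cons, ih]
    ring

lemma dual_negs (k : ℕ) (C : Circuit V) : (dual k C).negs = 0 := by
  unfold Circuit.negs
  induction C generalizing k with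
  | nil => rfl
  | cons g C ih =>
    simp only [dual]
    rw [List.countP_cons, List.countP_cons, ih]
    cases g <;> rfl

lemma valsK_length (p : V → Option Bool) (C : Circuit V) (l : List (Option Bool)) :
    (valsK p C l).length = l.length + C.length := by
  induction C generalizing l with
  | nil => simp [valsK]
  | cons g C ih =>
    simp only [valsK, ih, List.length_append, List.length_cons, List.length_nil]
    ring

lemma dual_val (p : V → Option Bool) (C : Circuit V) (a : Wire V) :
    (dual 0 C).val (railIn p) (railW C.length true a) = (kleene C p a == some true) := by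
  have h1 := dual_vals p C []
  have h2 := railW_val p (valsK p C []) [] true a
  rw [valsK_length, List.append_nil] at h2
  simp only [List.length_nil, Nat.zero_add, flat] at h1 h2
  unfold Circuit.val kleene
  rw [h1, h2]

lemma wireK_total (x : V → Bool) (l : List Bool) (a : Wire V) :
    wireK (fun v => some (x v)) (l.map some) a = some (a.val x l) := by
  cases a with
  | var v => rfl
  | const c => rfl
  | gate i =>
    simp only [wireK, Wire.val]
    rw [List.getD_map]

lemma gateK_total (x : V → Bool) (l : List Bool) (g : Gate V) :
    gateK (fun v => some (x v)) (l.map some) g = some (g.val x l) := by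
  cases g with
  | and a b =>
    simp only [gateK, Gate.val, wireK_total]
    cases a.val x l <;> rfl
  | or a b =>
    simp only [gateK, Gate.val, wireK_total]
    cases a.val x l <;> rfl
  | not a =>
    simp only [gateK, Gate.val, wireK_total]
    rfl

lemma valsK_total (x : V → Bool) (C : Circuit V) (l : List Bool) :
    valsK (fun v => some (x v)) C (l.map some) = (gateVals x C l).map some := by
  induction C generalizing l with
  | nil => rfl
  | cons g C ih =>
    simp only [valsK, gateVals]
    rw [gateK_total, ← ih]
    simp

/-- On a completely visible input Kleene's value is the value of the circuit. -/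
lemma kleene_total (C : Circuit V) (x : V → Bool) (a : Wire V) :
    kleene C (fun v => some (x v)) a = some (C.val x a) := by
  have h1 := valsK_total x C []
  unfold kleene Circuit.val
  rw [List.map_nil] at h1
  rw [h1, wireK_total]

lemma railIn_total (x : V → Bool) : railIn (fun v => some (x v)) = lits x := by
  funext s
  rcases s with v | v
  · simp only [railIn, lits, Sum.elim_inl]
    cases x v <;> rfl
  · simp only [railIn, lits, Sum.elim_inr]
    cases x v <;> rfl

lemma railIn_hide [DecidableEq V] (U Z : Finset V) (x : V → Bool) (hZ : ∀ v ∈ Z, x v = false) :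
    railIn (hide U Z x) = litsOn U Z x := by
  classical
  funext s
  rcases s with v | v
  · simp only [railIn, litsOn, Sum.elim_inl, hide]
    cases hx : x v
    · split_ifs <;> simp
    · simp
  · simp only [railIn, litsOn, Sum.elim_inr, hide]
    by_cases hU : v ∈ U
    · rw [if_pos hU]
      by_cases hvZ : v ∈ Z
      · simp [hU, hvZ, hZ v hvZ]
      · cases hx : x v <;> simp [hU, hvZ]
    · rw [if_neg hU]
      cases hx : x v <;> simp [hU]

end

/-- **Hidden zeros.** -/
theorem hidden_zeros (δ ε : ℝ) (hδ : 0 < δ) (hδ' : δ < 1 / 2) (hε : 0 < ε) :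
    ∃ L : List Bool → Bool, (∃ c : ℕ, DecidableInTime L (fun n => c * 2 ^ n)) ∧
      (∀ n : ℕ, Monotone fun x : Fin n → Bool => L (List.ofFn x)) ∧
      ∃ n₀ : ℕ, ∀ n ≥ n₀, ∀ U : Finset (Fin n), (n : ℝ) ^ (2 * δ + ε) ≤ U.card →
        ∃ (ρ : Fin n → Bool) (H : Finset (Fin n → Bool)), H.Nonempty ∧
          (∀ x ∈ H, L (List.ofFn x) = true ∧ ∀ v, v ∉ U → x v = ρ v) ∧
          ∀ (t : ℕ) (C : (Fin t → Bool) → Circuit (Fin n)) (out : (Fin t → Bool) → Wire (Fin n)),
            (∀ y, ((C y).size : ℝ) ≤ 2 ^ ((n : ℝ) ^ δ)) →
            (∀ y (x : Fin n → Bool), (∀ v, v ∉ U → x v = ρ v) →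
              (C y).val x (out y) = true → L (List.ofFn x) = true) →
            ∀ A ⊆ H, (∀ x ∈ A, ∃ (y : Fin t → Bool) (Z : Finset (Fin n)),
              Z ⊆ U ∧ (∀ v ∈ Z, x v = false) ∧ kleene (C y) (hide U Z x) (out y) = some true ∧
                (t : ℝ) + Z.card < U.card / (n : ℝ) ^ (δ + ε)) →
              (A.card : ℝ) ≤ (2 : ℝ) ^ (-(U.card / (n : ℝ) ^ (δ + ε))) * H.card := by
  set ε₁ := min ε (1 - 2 * δ) with hε₁
  have h1 : 0 < ε₁ := lt_min hε (by linarith)
  have h2 : ε₁ ≤ ε := min_le_left _ _
  have h3 : ε₁ ≤ 1 - 2 * δ := min_le_right _ _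
  obtain ⟨L, hL, hmono, n₀, hn₀⟩ := main (δ + ε₁ / 4) (ε₁ / 2) (by linarith) (by linarith)
    (by linarith)
  have hlim : ∀ᶠ n : ℕ in Filter.atTop, 1 + (n : ℝ) ^ δ ≤ (n : ℝ) ^ (δ + ε₁ / 4) := by
    have h4 : Filter.Tendsto (fun n : ℕ => ((n : ℕ) : ℝ) ^ (ε₁ / 4)) Filter.atTop Filter.atTop :=
      (tendsto_rpow_atTop (by linarith)).comp tendsto_natCast_atTop_atTop
    filter_upwards [h4.eventually_ge_atTop 2, Filter.eventually_ge_atTop 1] with n hn hn1
    have hn1' : (1 : ℝ) ≤ n := by exact_mod_cast hn1
    have h5 : (1 : ℝ) ≤ (n : ℝ) ^ δ := Real.one_le_rpow hn1' hδ.le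
    rw [Real.rpow_add (by linarith)]
    nlinarith
  obtain ⟨n₁, hn₁⟩ := Filter.eventually_atTop.mp hlim
  refine ⟨L, hL, hmono, max n₀ (max n₁ 1), fun n hn U hU => ?_⟩
  have hna : n₀ ≤ n := (le_max_left _ _).trans hn
  have hnb : n₁ ≤ n := (le_max_left _ _).trans ((le_max_right _ _).trans hn)
  have hnc : 1 ≤ n := (le_max_right _ _).trans ((le_max_right _ _).trans hn)
  have hn1 : (1 : ℝ) ≤ n := by exact_mod_cast hnc
  have hn0 : (0 : ℝ) < n := by linarith
  obtain ⟨ρ, H, h5, h6, h7⟩ := hn₀ n hna U
    ((Real.rpow_le_rpow_of_exponent_le hn1 (by linarith)).trans hU)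
  have hdiv : (U.card : ℝ) / (n : ℝ) ^ (δ + ε)
      ≤ U.card / (n : ℝ) ^ (δ + ε₁ / 4 + ε₁ / 2) := by
    apply div_le_div_of_nonneg_left (Nat.cast_nonneg _) (Real.rpow_pos_of_pos hn0 _)
    exact Real.rpow_le_rpow_of_exponent_le hn1 (by linarith)
  refine ⟨ρ, H, h5, h6, fun t C out hC hone A hAH hA => ?_⟩
  refine (h7 t (fun y => dual 0 (C y)) (fun y => railW (C y).length true (out y)) (fun y => ?_)
    (fun y x hx hy => ?_) A hAH fun x hx => ?_).trans
    (mul_le_mul_of_nonneg_right ?_ (Nat.cast_nonneg _))
  · refine ⟨dual_negs 0 (C y), ?_⟩
    rw [dual_size]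
    push_cast
    calc (2 : ℝ) * (C y).size ≤ 2 * 2 ^ ((n : ℝ) ^ δ) :=
          mul_le_mul_of_nonneg_left (hC y) (by norm_num)
      _ = 2 ^ (1 + (n : ℝ) ^ δ) := by
          rw [Real.rpow_add (by norm_num), Real.rpow_one]
      _ ≤ 2 ^ ((n : ℝ) ^ (δ + ε₁ / 4)) :=
          Real.rpow_le_rpow_of_exponent_le (by norm_num) (hn₁ n hnb)
  · refine hone y x hx ?_
    rw [← railIn_total, dual_val, kleene_total] at hy
    simpa using hy
  · obtain ⟨y, Z, hZU, hZ, hk, hlt⟩ := hA x hx
    refine ⟨y, Z, hZU, hZ, ?_, hlt.trans_le hdiv⟩
    rw [← railIn_hide U Z x hZ, dual_val, hk]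
    rfl
  · apply Real.rpow_le_rpow_of_exponent_le (by norm_num)
    linarith

end Pool.Agent.NWE
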