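import Pool.Agent.NWE.Fam
import Pool.Agent.LocE.Block
import Pool.Agent.GB24.CircClass

set_option autoImplicit false

/-!
# The uniform distribution on a set: products, and the graphs of polynomials
-/

namespace Pool.Agent.NWE

open Pool.Agent.NTR.Gen Pool.Agent.GB24 Finset Pool.Agent.NegLim Pool.Agent.LocE
open scoped BigOperators

set_option linter.unusedSectionVars false

section

variable {β : Type} [Fintype β] [DecidableEq β] {r : ℕ}

/-- The uniform density on the set `S`. -/
noncomputable def unif (S : Finset (β → Bool)) (u : β → Bool) : ℝ :=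
  if u ∈ S then 1 / (S.card : ℝ) else 0

lemma unif_nonneg (S : Finset (β → Bool)) (u : β → Bool) : 0 ≤ unif S u := by
  unfold unif
  split_ifs
  · positivity
  · exact le_rfl

lemma unif_sum (S : Finset (β → Bool)) (h : (β → Bool) → Bool) :
    ∑ u with h u = true, unif S u = ((S.filter fun u => h u = true).card : ℝ) / S.card := by
  unfold unif
  rw [Finset.sum_ite, Finset.sum_const_zero, add_zero, Finset.sum_const, nsmul_eq_mul, mul_one_div]
  congr 3
  ext u
  simp only [Finset.mem_filter, Finset.mem_univ, true_and]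
  exact and_comm

/-- The tuples of elements of `S`. -/
def tup (S : Finset (β → Bool)) (r : ℕ) : Finset (Fin r × β → Bool) :=
  univ.filter fun y => ∀ i, (fun b => y (i, b)) ∈ S

lemma mem_tup {S : Finset (β → Bool)} {y : Fin r × β → Bool} :
    y ∈ tup S r ↔ ∀ i, (fun b => y (i, b)) ∈ S := by
  simp [tup]

lemma prodD_unif_mem {S : Finset (β → Bool)} {y : Fin r × β → Bool} (hy : y ∈ tup S r) :
    prodD (unif S) y = (1 / (S.card : ℝ)) ^ r := by
  rw [mem_tup] at hy
  unfold prodD unif
  rw [Finset.prod_congr rfl fun i _ => if_pos (hy i)]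
  simp

lemma prodD_unif_notMem {S : Finset (β → Bool)} {y : Fin r × β → Bool} (hy : y ∉ tup S r) :
    prodD (unif S) y = 0 := by
  rw [mem_tup] at hy
  push Not at hy
  obtain ⟨i, hi⟩ := hy
  exact Finset.prod_eq_zero (mem_univ i) (if_neg hi)

lemma unif_sum_one {S : Finset (β → Bool)} (hS : S.Nonempty) : ∑ u, unif S u = 1 := by
  have h1 : (0 : ℝ) < S.card := by exact_mod_cast hS.card_pos
  unfold unif
  rw [Finset.sum_ite_mem, Finset.univ_inter, Finset.sum_const, nsmul_eq_mul, mul_one_div,
    div_self h1.ne']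

lemma card_tup {S : Finset (β → Bool)} (hS : S.Nonempty) :
    ((tup S r).card : ℝ) * (1 / (S.card : ℝ)) ^ r = 1 := by
  have h1 := prodD_sum (r := r) (unif S) (unif_sum_one hS)
  rw [← Finset.sum_subset (Finset.subset_univ (tup S r)) fun y _ hy => prodD_unif_notMem hy,
    Finset.sum_congr rfl fun y hy => prodD_unif_mem hy, Finset.sum_const, nsmul_eq_mul] at h1
  exact h1

lemma card_le_of_sum {S : Finset (β → Bool)} (hS : S.Nonempty) {A : Finset (Fin r × β → Bool)}
    (hA : A ⊆ tup S r) {c : ℝ} (h : ∑ y ∈ A, prodD (unif S) y ≤ c) :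
    (A.card : ℝ) ≤ c * (tup S r).card := by
  rw [Finset.sum_congr rfl fun y hy => prodD_unif_mem (hA hy), Finset.sum_const,
    nsmul_eq_mul] at h
  calc (A.card : ℝ) = A.card * (((tup S r).card : ℝ) * (1 / (S.card : ℝ)) ^ r) := by
        rw [card_tup hS, mul_one]
    _ = A.card * (1 / (S.card : ℝ)) ^ r * (tup S r).card := by ring
    _ ≤ c * (tup S r).card := mul_le_mul_of_nonneg_right h (Nat.cast_nonneg _)

lemma tup_nonempty {S : Finset (β → Bool)} (hS : S.Nonempty) : (tup S r).Nonempty := by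
  obtain ⟨u, hu⟩ := hS
  exact ⟨fun p => u p.2, mem_tup.mpr fun _ => hu⟩

/-- A substitution which turns `f` into the conjunction of copies of `g` is injective on the tuples
of minimal ones of `g`. -/
lemma subst_injOn {ι : Type} (g : (β → Bool) → Bool) (S : Finset (β → Bool))
    (hg1 : ∀ u ∈ S, g u = true)
    (hmin : ∀ u ∈ S, ∀ u', (∀ b, u' b = true → u b = true) → g u' = true → u' = u)
    (f : (ι → Bool) → Bool) (φ : ι → (Fin r × β) ⊕ Bool)
    (hf : ∀ y : Fin r × β → Bool, f (fun v => Sum.elim y id (φ v)) = true ↔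
      ∀ i, g (fun b => y (i, b)) = true) :
    Set.InjOn (fun (y : Fin r × β → Bool) (v : ι) => (Sum.elim y id (φ v) : Bool))
      (tup S r : Set (Fin r × β → Bool)) := by
  intro y hy y' hy' hyy
  rw [Finset.mem_coe, mem_tup] at hy hy'
  have hyy' : ∀ v, (Sum.elim y id (φ v) : Bool) = Sum.elim y' id (φ v) := fun v => congrFun hyy v
  have hz : (fun v => (Sum.elim (fun k => y k && y' k) id (φ v) : Bool)) =
      fun v => Sum.elim y id (φ v) := by
    funext v
    have h1 := hyy' v
    revert h1
    rcases φ v with k | c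
    · intro h1
      simp only [Sum.elim_inl] at h1 ⊢
      rw [← h1, Bool.and_self]
    · intro _
      rfl
  have h1 : ∀ i, g (fun b => y (i, b) && y' (i, b)) = true := by
    rw [← hf (fun k => y k && y' k), hz, hf]
    exact fun i => hg1 _ (hy i)
  have h2 : ∀ i, (fun b => y (i, b) && y' (i, b)) = fun b => y (i, b) := fun i =>
    hmin _ (hy i) _ (fun b hb => (Bool.and_eq_true_iff.mp hb).1) (h1 i)
  have h3 : ∀ i, (fun b => y (i, b) && y' (i, b)) = fun b => y' (i, b) := fun i =>
    hmin _ (hy' i) _ (fun b hb => (Bool.and_eq_true_iff.mp hb).2) (h1 i)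
  funext ⟨i, b⟩
  exact (congrFun (h2 i) b).symm.trans (congrFun (h3 i) b)

end

/-- The graphs of the polynomials of degree less than `2 w`. -/
noncomputable def graphSet (N w q : ℕ) [Fact q.Prime] : Finset (Fin N × ZMod q → Bool) :=
  univ.image fun c : Fin (2 * w) → ZMod q => chi (graph N c)

lemma chi_inj {V : Type} [Fintype V] [DecidableEq V] {x y : Finset V} (h : chi x = chi y) :
    x = y := by
  ext v
  have h1 := congrFun h v
  simpa [chi] using h1

lemma graph_injective (N w q : ℕ) [Fact q.Prime] (h2w : 2 * w ≤ N) (hNq : N ≤ q) :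
    Function.Injective fun c : Fin (2 * w) → ZMod q => chi (graph N c) := by
  intro c c' h
  have h1 : graph N c = graph N c' := chi_inj h
  obtain ⟨I, -, hI⟩ := Finset.exists_subset_card_eq (s := (univ : Finset (Fin N))) (n := 2 * w)
    (by simpa using h2w)
  refine pval_inj hNq hI fun i _ => ?_
  have h2 : (i, pval c (i : ℕ)) ∈ graph N c := mem_graph.mpr rfl
  rw [h1] at h2
  exact mem_graph.mp h2

lemma card_graphSet (N w q : ℕ) [Fact q.Prime] (h2w : 2 * w ≤ N) (hNq : N ≤ q) :
    (graphSet N w q).card = q ^ (2 * w) := by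
  unfold graphSet
  rw [Finset.card_image_of_injective _ (graph_injective N w q h2w hNq), Finset.card_univ,
    Fintype.card_fun, ZMod.card, Fintype.card_fin]

lemma graphSet_polyFn (N w q : ℕ) [Fact q.Prime] (u : Fin N × ZMod q → Bool)
    (hu : u ∈ graphSet N w q) : polyFn q w N u = true := by
  unfold graphSet at hu
  rw [Finset.mem_image] at hu
  obtain ⟨c, -, rfl⟩ := hu
  rw [polyFn_iff]
  exact ⟨c, fun j => decide_eq_true (mem_graph.mpr rfl)⟩

lemma graphSet_min (N w q : ℕ) [Fact q.Prime] (u : Fin N × ZMod q → Bool)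
    (hu : u ∈ graphSet N w q) (u' : Fin N × ZMod q → Bool)
    (hle : ∀ b, u' b = true → u b = true) (h1 : polyFn q w N u' = true) : u' = u := by
  unfold graphSet at hu
  rw [Finset.mem_image] at hu
  obtain ⟨c, -, rfl⟩ := hu
  rw [polyFn_iff] at h1
  obtain ⟨c', hc'⟩ := h1
  funext ⟨j, v⟩
  rw [Bool.eq_iff_iff]
  refine ⟨hle _, fun h => ?_⟩
  have h2 : (j, v) ∈ graph N c := of_decide_eq_true h
  have h3 := of_decide_eq_true (hle _ (hc' j))
  rw [mem_graph] at h2 h3
  simp only at h2 h3
  have h4 := hc' j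
  rw [h3, ← h2] at h4
  exact h4

/-- Circuits without NOT gates below the polynomial function accept few graphs. -/
theorem graphs_few (N w M L k q S : ℕ) [Fact q.Prime] (hw : 1 ≤ w) (h2w : 2 * w ≤ N)
    (hNq : N ≤ q) (hM : 256 * (M + 1) ≤ q) (hL : 2 * w < 2 ^ L)
    (hk : (N * q + 1) ^ (2 * w) * 4 ^ w ≤ 4 ^ k) (hr : 2 * (L * k) ≤ M + 1)
    (herr : (S : ℝ) * (2 * (1 / 4) ^ w) + (q : ℝ) ^ (2 * w) * (1 / 2) ^ N ≤ (1 / 2) ^ w)
    (h : (Fin N × ZMod q → Bool) → Bool) (hh : MonCirc S h)
    (hle : ∀ u, h u = true → polyFn q w N u = true) :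
    ∑ u with h u = true, unif (graphSet N w q) u ≤ (1 / 2 : ℝ) ^ w := by
  classical
  have hqp : q.Prime := Fact.out
  have hLk : 1 ≤ L * k := by
    rcases Nat.eq_zero_or_pos (L * k) with h0 | h0
    · exfalso
      rcases Nat.mul_eq_zero.mp h0 with h1 | h1
      · rw [h1] at hL; simp at hL; omega
      · rw [h1, pow_zero] at hk
        have h2 : 1 ≤ (N * q + 1) ^ (2 * w) := Nat.one_le_pow _ _ (by omega)
        have h3 : 4 ^ 1 ≤ 4 ^ w := Nat.pow_le_pow_right (by norm_num) hw
        nlinarith
    · exact h0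
  obtain ⟨C, o, c1, c2, c3⟩ := hh
  have hF := monSize_of_negs C o c1
  set F : Set (Finset (Fin N × ZMod q)) := {x | C.val (chi x) o = true} with hFdef
  have h1 := domination2 (fun c : Fin (2 * w) → ZMod q => graph N c) M L k w (q : ℝ)
    (by exact_mod_cast hqp.pos) hLk hw (by exact_mod_cast hM) hL (spread_graph w h2w hNq) (by
      rw [Fintype.card_prod, Fintype.card_fin, ZMod.card]
      have h1 : (((N * q : ℕ) : ℝ) + 1) ^ (2 * w) * 4 ^ w ≤ 4 ^ k := by exact_mod_cast hk
      have h2 : (1 / 4 : ℝ) ^ k = 1 / 4 ^ k := by rw [one_div, inv_pow, one_div]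
      have h3 : (1 / 4 : ℝ) ^ w = 1 / 4 ^ w := by rw [one_div, inv_pow, one_div]
      rw [h2, h3, mul_one_div, div_le_div_iff₀ (by positivity) (by positivity)]
      linarith) hF ∅
  have h3 : (nz M ^ (L * k)) (ind F) ∅
      ≤ (nz M ^ (L * k)) (ind (upFam fun c : Fin (2 * w) → ZMod q => graph N c)) ∅ := by
    refine nz_pow_mono M (L * k) (ind_mono fun x hx => ?_) ∅
    have h4 : h (chi x) = true := by
      rw [← c3]
      exact hx
    have h5 := hle _ h4
    rw [polyFn_iff] at h5
    obtain ⟨c, hc⟩ := h5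
    refine ⟨c, fun p hp => ?_⟩
    have h6 := of_decide_eq_true (hc p.1)
    rw [← mem_graph.mp hp] at h6
    exact h6
  have h4 := upFam_prob (fun c : Fin (2 * w) → ZMod q => graph N c) M (L * k) N hr
    (fun c => (card_graph c).ge)
  rw [Fintype.card_fun, ZMod.card, Fintype.card_fin] at h4
  have h5 : (C.size : ℝ) * (2 * (1 / 4 : ℝ) ^ w) ≤ S * (2 * (1 / 4 : ℝ) ^ w) := by
    apply mul_le_mul_of_nonneg_right _ (by positivity)
    exact_mod_cast c2
  have h6 : ∑ u with h u = true, unif (graphSet N w q) u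
      = 𝔼 c : Fin (2 * w) → ZMod q, ind F (∅ ∪ graph N c) := by
    rw [unif_sum, card_graphSet N w q h2w hNq, Fintype.expect_eq_sum_div_card, Fintype.card_fun,
      ZMod.card, Fintype.card_fin]
    congr 1
    unfold graphSet
    rw [Finset.filter_image, Finset.card_image_of_injective _ (graph_injective N w q h2w hNq),
      Finset.card_filter]
    push_cast
    refine Finset.sum_congr rfl fun c _ => ?_
    rw [Finset.empty_union]
    by_cases h7 : h (chi (graph N c)) = true
    · rw [if_pos h7, ind_of_mem]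
      show C.val (chi (graph N c)) o = true
      rw [c3]
      exact h7
    · rw [if_neg h7, ind_of_notMem]
      intro h8
      apply h7
      rw [← c3]
      exact h8
  rw [h6]
  push_cast at h4
  linarith

end Pool.Agent.NWE
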