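import Pool.Agent.NegLim.Defs

/-!
# Devices on literals, negated variables of a set `U`
-/

namespace Pool.Agent.NWE

/-- The values of the literals of the input `x`: the literal `Sum.inl i` is the variable `i`, the
literal `Sum.inr i` is its negation. -/
def lits {ι : Type} (x : ι → Bool) : ι ⊕ ι → Bool :=
  Sum.elim x fun i => !x i

open Classical in
/-- The values of the literals of `x` when the negated variables in `U` are switched off except
those in `Z`. -/
noncomputable def litsOn {ι : Type} (U Z : Finset ι) (x : ι → Bool) : ι ⊕ ι → Bool :=
  Sum.elim x fun i => if i ∈ U then decide (i ∈ Z) else !x i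

end Pool.Agent.NWE
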