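import Pool.Agent.GB24.Neg

set_option autoImplicit false

/-!
# One-sided devices on a conjunction of copies: the average case

If every function of the class `K` below `g` has `D₁`-measure at most `η`, then every function of the
class below the conjunction of `r` copies of `g` has `D₁ ^ r`-measure at most `η ^ r`.
-/

namespace Pool.Agent.NWE

open Pool.Agent.NTR.Gen Pool.Agent.GB24 Finset
open scoped BigOperators

/-- The product distribution. -/
noncomputable def prodD {β : Type} {r : ℕ} (D : (β → Bool) → ℝ) (x : Fin r × β → Bool) : ℝ :=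
  ∏ i, D fun b => x (i, b)

lemma prodD_nonneg {β : Type} {r : ℕ} (D : (β → Bool) → ℝ) (h0 : ∀ u, 0 ≤ D u)
    (x : Fin r × β → Bool) : 0 ≤ prodD D x :=
  Finset.prod_nonneg fun _ _ => h0 _

lemma sum_prod_block {β : Type} [Fintype β] [DecidableEq β] {r : ℕ} (G : Fin r → (β → Bool) → ℝ) :
    ∑ x : Fin r × β → Bool, ∏ i, G i (fun b => x (i, b)) = ∏ i, ∑ u, G i u := by
  classical
  rw [Finset.prod_univ_sum]
  refine Finset.sum_bij' (fun x _ => fun i b => x (i, b)) (fun z _ => fun e => z e.1 e.2) ?_ ?_ ?_ ?_ ?_
  · intro x _
    simp
  · intro z _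
    simp
  · intro x _
    rfl
  · intro z _
    rfl
  · intro x _
    rfl

lemma prodD_sum {β : Type} [Fintype β] [DecidableEq β] {r : ℕ} (D : (β → Bool) → ℝ) (h1 : ∑ u, D u = 1) :
    ∑ x : Fin r × β → Bool, prodD D x = 1 := by
  unfold prodD
  rw [sum_prod_block fun _ => D]
  simp [h1]

/-- **Functions of the class below the conjunction of the copies are small.** -/
theorem prod_small (K : MonoClass) {β : Type} [Fintype β] [DecidableEq β] {r : ℕ} (g : (β → Bool) → Bool)
    (D : (β → Bool) → ℝ) (h0 : ∀ u, 0 ≤ D u) (η : ℝ)
    (hη : ∀ h : (β → Bool) → Bool, K.mem β h → (∀ u, h u = true → g u = true) →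
      ∑ u with h u = true, D u ≤ η)
    (C : (Fin r × β → Bool) → Bool) (hC : K.mem _ C)
    (hle : ∀ x, C x = true → ∀ i, g (fun b => x (i, b)) = true) :
    ∑ x with C x = true, prodD D x ≤ η ^ r := by
  have hb : ∀ (i : Fin r) (x : Fin r × β → Bool), C x = true →
      C (block i fun b => x (i, b)) = true := by
    intro i x hx
    refine Bool.le_iff_imp.mp (K.mono _ C hC fun e => ?_) hx
    by_cases he : e.1 = i
    · rw [Bool.le_iff_imp]
      intro h
      unfold block
      rw [if_pos he, ← he]
      exact h
    · unfold block
      rw [if_neg he]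
      exact Bool.le_true _
  calc ∑ x with C x = true, prodD D x
      ≤ ∑ x : Fin r × β → Bool, ∏ i, (D (fun b => x (i, b))
          * if C (block i fun b => x (i, b)) = true then 1 else 0) := by
        rw [Finset.sum_filter]
        refine Finset.sum_le_sum fun x _ => ?_
        by_cases hx : C x = true
        · rw [if_pos hx]
          refine le_of_eq (Finset.prod_congr rfl fun i _ => ?_)
          rw [if_pos (hb i x hx), mul_one]
        · rw [if_neg hx]
          refine Finset.prod_nonneg fun i _ => mul_nonneg (h0 _) ?_
          split_ifs <;> norm_num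
    _ = ∏ i : Fin r, ∑ u, (D u * if C (block i u) = true then 1 else 0) :=
        sum_prod_block fun i u => D u * if C (block i u) = true then 1 else 0
    _ ≤ ∏ _i : Fin r, η := by
        refine Finset.prod_le_prod (fun i _ => Finset.sum_nonneg fun u _ =>
          mul_nonneg (h0 u) (by split_ifs <;> norm_num)) fun i _ => ?_
        refine le_trans (le_of_eq ?_) (hη (fun u => C (block i u)) (mem_block K i C hC) ?_)
        · rw [Finset.sum_filter]
          refine Finset.sum_congr rfl fun u _ => ?_
          split_ifs <;> simp
        · intro u hu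
          have h1 := hle _ hu i
          simpa [block] using h1
    _ = η ^ r := by simp

end Pool.Agent.NWE
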