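import Pool.Agent.NWE.Lang
import Pool.Agent.NWE.Restr
import Pool.Agent.LocE.Addr

set_option autoImplicit false

/-!
# The language as a conjunction of copies of the polynomial function on selectors
-/

namespace Pool.Agent.NWE

open Finset Pool.Agent.NegLim Pool.Agent.NegLim.Lang Pool.Agent.NegLim.NPL Pool.Agent.NTR
  Pool.Agent.LocE

/-- The language: in one of two halves all copies of the polynomial function on the values of the
selectors are `1`. -/
theorem langA_iff_pool (a B d n q : ℕ) [Fact q.Prime] (hq : q = pq a B n)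
    (hS : q ^ (2 * rt B n ^ a + 1) ≤ 2 ^ (n / d)) (hl2 : 2 ^ (lgc n - 1) ≤ n + 1)
    (hn : pr a B n * (4 * (rt B n ^ (a + 1) * q) * lgc n) ≤ n)
    (x : Fin n → Bool) :
    langA a B d (List.ofFn x) = true ↔
      ∃ h : Bool, ∀ i : Fin (pr a B n), ∃ u : Fin (rt B n ^ (a + 1)) × ZMod q → Bool,
        (∀ β, u β = true ↔ poolVal (code (lgc n)) (A hn) x ((h, i), β)) ∧
        polyFn q (rt B n ^ a) (rt B n ^ (a + 1)) u = true := by
  classical
  have hqp : q.Prime := Fact.out
  rw [langA_iff a B d n q (lgc n) hq rfl hS hl2]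
  -- the meaning of one selector
  have hsel : ∀ (k : Bool × Fin (pr a B n)) (j : Fin (rt B n ^ (a + 1))) (v : ZMod q),
      (∃ p < n, (List.ofFn x).getD p false = true ∧ ∀ t < lgc n,
        (List.ofFn x).getD (((((if k.1 then pr a B n else 0) + k.2) * (rt B n ^ (a + 1) * q)
          + (j * q + v.val)) * lgc n + t) * 2 + p / 2 ^ t % 2) false = true) ↔
      poolVal (code (lgc n)) (A hn) x (k, (j, v)) := by
    intro k j v
    unfold poolVal
    have hbit : ∀ (p : ℕ) (t : ℕ), p / 2 ^ t % 2 = if p.testBit t then 1 else 0 := by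
      intro p t
      rw [Nat.testBit_eq_decide_div_mod_eq]
      by_cases h : p / 2 ^ t % 2 = 1
      · simp [h]
      · have : p / 2 ^ t % 2 = 0 := by omega
        simp [this]
    constructor
    · rintro ⟨p, hp, h1, h2⟩
      refine ⟨⟨p, hp⟩, by rwa [getD_ofFn x hp] at h1, fun t => ?_⟩
      have h3 := h2 t t.isLt
      rw [hbit] at h3
      have h4 : addr (r := pr a B n) (l := lgc n) (N := rt B n ^ (a + 1)) (q := q)
          ((k, (j, v)), t, code (lgc n) (⟨p, hp⟩ : Fin n) t) < n := (addr_lt _).trans_le hn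
      have h5 := getD_ofFn x h4
      show x ⟨addr _, _⟩ = true
      rw [← h5]
      exact h3
    · rintro ⟨p, h1, h2⟩
      refine ⟨p, p.isLt, by rw [getD_ofFn x p.isLt]; exact h1, fun t ht => ?_⟩
      have h3 := h2 ⟨t, ht⟩
      rw [hbit]
      have h4 : addr (r := pr a B n) (l := lgc n) (N := rt B n ^ (a + 1)) (q := q)
          ((k, (j, v)), ⟨t, ht⟩, code (lgc n) p ⟨t, ht⟩) < n := (addr_lt _).trans_le hn
      have h5 := getD_ofFn x h4
      have h6 : x ⟨addr (r := pr a B n) (l := lgc n) (N := rt B n ^ (a + 1)) (q := q)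
          ((k, (j, v)), ⟨t, ht⟩, code (lgc n) p ⟨t, ht⟩), h4⟩ = true := h3
      rw [← h5] at h6
      exact h6
  have hif : ∀ h : Bool, (if h then pr a B n else 0) = (if h then 1 else 0) * pr a B n := by
    intro h
    cases h <;> simp
  constructor
  · rintro ⟨h, hh, hc⟩
    obtain ⟨h', hh'⟩ : ∃ h' : Bool, (if h' then 1 else 0) = h := by
      rcases Nat.lt_or_ge h 1 with h1 | h1
      · exact ⟨false, by simp; omega⟩
      · exact ⟨true, by simp; omega⟩
    refine ⟨h', fun i => ?_⟩
    obtain ⟨c, hc⟩ := hc i i.isLt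
    refine ⟨fun β => decide (poolVal (code (lgc n)) (A hn) x ((h', i), β)),
      fun β => by rw [decide_eq_true_eq], ?_⟩
    rw [polyFn_iff]
    refine ⟨c, fun j => ?_⟩
    rw [decide_eq_true_eq, ← hsel (h', i) j]
    simp only [hif h', hh']
    exact hc j j.isLt
  · rintro ⟨h, hall⟩
    refine ⟨if h then 1 else 0, by cases h <;> simp, fun k hk => ?_⟩
    obtain ⟨u, hu, hpu⟩ := hall ⟨k, hk⟩
    rw [polyFn_iff] at hpu
    obtain ⟨c, hc⟩ := hpu
    refine ⟨c, fun i hi => ?_⟩
    have h1 := (hu _).mp (hc ⟨i, hi⟩)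
    rw [← hsel (h, ⟨k, hk⟩) ⟨i, hi⟩] at h1
    simp only [hif h] at h1
    exact h1

lemma polyFn_one (q w N : ℕ) : polyFn q w N (fun _ => true) = true := by
  rw [polyFn_iff]
  exact ⟨fun _ => 0, fun _ => rfl⟩

/-- After the restriction the language is the conjunction of `r'` copies. -/
theorem exists_restrictionA (a B d n q : ℕ) [Fact q.Prime] (hq : q = pq a B n)
    (hS : q ^ (2 * rt B n ^ a + 1) ≤ 2 ^ (n / d)) (hl2 : 2 ^ (lgc n - 1) ≤ n + 1)
    (hl : 2 ≤ lgc n) (hnl : n ≤ 2 ^ lgc n) (hN : 1 ≤ rt B n ^ (a + 1))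
    (U : Finset (Fin n)) (r' : ℕ)
    (hr : r' * (4 * (rt B n ^ (a + 1) * q) * lgc n) ≤ U.card) :
    ∃ φ : Fin n → (Fin r' × (Fin (rt B n ^ (a + 1)) × ZMod q)) ⊕ Bool,
      (∀ v, v ∉ U → ∃ c, φ v = .inr c) ∧
      ∀ y : Fin r' × (Fin (rt B n ^ (a + 1)) × ZMod q) → Bool,
        langA a B d (List.ofFn fun v => Sum.elim y id (φ v)) = true ↔
          ∀ i, polyFn q (rt B n ^ a) (rt B n ^ (a + 1)) (fun b => y (i, b)) = true := by
  classical
  have hqp : q.Prime := Fact.out
  set N := rt B n ^ (a + 1) with hNdef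
  have hpos : 0 < 4 * (N * q) * lgc n := by
    have := hqp.pos
    positivity
  have hprq : pr a B n = n / (4 * (N * q) * lgc n) := by
    unfold pr
    rw [← hq, ← hNdef]
  have hn : pr a B n * (4 * (N * q) * lgc n) ≤ n := by
    rw [hprq]
    exact Nat.div_mul_le_self _ _
  have hrr : r' ≤ pr a B n := by
    rw [hprq, Nat.le_div_iff_mul_le hpos]
    refine hr.trans ((Finset.card_le_univ _).trans (by simp))
  have hcard : Fintype.card (Fin N × ZMod q) = N * q := by
    rw [Fintype.card_prod, Fintype.card_fin, ZMod.card]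
  have : Nonempty (Fin N × ZMod q) := ⟨(⟨0, hN⟩, 0)⟩
  obtain ⟨φ, h, hφ, hh⟩ := exists_poolAnd_restriction hl (code (lgc n)) (code_injective hnl) (A hn)
    (A_injective hn) U r' hrr (by rw [hcard]; exact hr)
  refine ⟨φ, hφ, fun y => ?_⟩
  rw [langA_iff_pool a B d n q hq hS hl2 hn]
  constructor
  · rintro ⟨h', hall⟩ i
    obtain ⟨u, hu, hgu⟩ := hall (Fin.castLE hrr i)
    by_cases hh' : h' = h
    · subst hh'
      have huy : u = fun b => y (i, b) := by
        funext b
        rw [Bool.eq_iff_iff, hu b, (hh y).1 i b]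
      rwa [huy] at hgu
    · have hu0 : u = fun _ => false := by
        funext b
        have h1 := (hh y).2.2 h' (Fin.castLE hrr i) b hh'
        rw [← hu b] at h1
        simpa using h1
      rw [hu0, polyFn_zero q _ N hN] at hgu
      exact absurd hgu Bool.false_ne_true
  · intro hall
    refine ⟨h, fun i => ?_⟩
    by_cases hi : ∃ i', Fin.castLE hrr i' = i
    · obtain ⟨i', rfl⟩ := hi
      exact ⟨fun b => y (i', b), fun b => ((hh y).1 i' b).symm, hall i'⟩
    · push Not at hi
      exact ⟨fun _ => true, fun b => ⟨fun _ => (hh y).2.1 i b hi, fun _ => rfl⟩,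
        polyFn_one _ _ _⟩

end Pool.Agent.NWE
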