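import Pool.Agent.NWE.Kleene
import Pool.Agent.NegLim.Flips

set_option autoImplicit false

/-!
# Circuits for monotone functions which do not see the zeros in a small set

For every monotone function `f`, every circuit `C` for `f` and every set `U` of variables there is a
circuit for `f` with at most `2 ^ |U| * (|C| + 2)` gates whose NOT gates do not depend on the
variables in `U` and which, in Kleene's three-valued logic, accepts every `x` with `f x = 1` when all
zeros of `x` in `U` are hidden.
-/

namespace Pool.Agent.NWE

open Finset Pool.Agent.NegLim

variable {V : Type} [DecidableEq V]

/-- Substitute the constant `c` for the variable `i`. -/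
def substW (i : V) (c : Bool) : Wire V → Wire V
  | .var v => if v = i then .const c else .var v
  | .const b => .const b
  | .gate j => .gate j

/-- Substitute the constant `c` for the variable `i`. -/
def substG (i : V) (c : Bool) : Gate V → Gate V
  | .and a b => .and (substW i c a) (substW i c b)
  | .or a b => .or (substW i c a) (substW i c b)
  | .not a => .not (substW i c a)

omit [DecidableEq V] in
/-- Shift the numbers of the gates by `k`. -/
def shiftW (k : ℕ) : Wire V → Wire V
  | .var v => .var v
  | .const b => .const b
  | .gate j => .gate (j + k)

/-- Shift the numbers of the gates by `k`. -/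
def shiftG (k : ℕ) : Gate V → Gate V
  | .and a b => .and (shiftW k a) (shiftW k b)
  | .or a b => .or (shiftW k a) (shiftW k b)
  | .not a => .not (shiftW k a)

/-- An output wire of a circuit with `m` gates. -/
def safeW (m : ℕ) : Wire V → Wire V
  | .var v => .var v
  | .const b => .const b
  | .gate j => if j < m then .gate j else .const false

lemma wireK_subst (i : V) (c : Bool) (p : V → Option Bool) (l : List (Option Bool)) (a : Wire V) :
    wireK p l (substW i c a) = wireK (Function.update p i (some c)) l a := by
  cases a with
  | var v =>
    by_cases h : v = i
    · subst h
      simp [substW, wireK]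
    · simp [substW, wireK, h]
  | const b => rfl
  | gate j => rfl

lemma gateK_subst (i : V) (c : Bool) (p : V → Option Bool) (l : List (Option Bool)) (g : Gate V) :
    gateK p l (substG i c g) = gateK (Function.update p i (some c)) l g := by
  cases g <;> simp only [substG, gateK, wireK_subst]

lemma valsK_subst (i : V) (c : Bool) (p : V → Option Bool) (C : Circuit V)
    (l : List (Option Bool)) :
    valsK p (List.map (substG i c) C) l = valsK (Function.update p i (some c)) C l := by
  induction C generalizing l with
  | nil => rfl
  | cons g C ih =>
    simp only [List.map_cons, valsK, gateK_subst]
    exact ih _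

omit [DecidableEq V] in
lemma valsK_append (p : V → Option Bool) (C C' : Circuit V) (l : List (Option Bool)) :
    valsK p (List.append C C') l = valsK p C' (valsK p C l) := by
  induction C generalizing l with
  | nil => rfl
  | cons g C ih =>
    show valsK p (List.append C C') (l ++ [gateK p l g]) = _
    rw [ih]
    rfl

omit [DecidableEq V] in
lemma wireK_shift (p : V → Option Bool) (l' l : List (Option Bool)) (a : Wire V) :
    wireK p (l' ++ l) (shiftW l'.length a) = wireK p l a := by
  cases a with
  | var v => rfl
  | const b => rfl
  | gate j =>
    simp only [shiftW, wireK]
    rw [List.getD_append_right _ _ _ _ (by omega), Nat.add_sub_cancel]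

omit [DecidableEq V] in
lemma gateK_shift (p : V → Option Bool) (l' l : List (Option Bool)) (g : Gate V) :
    gateK p (l' ++ l) (shiftG l'.length g) = gateK p l g := by
  cases g <;> simp only [shiftG, gateK, wireK_shift]

omit [DecidableEq V] in
lemma valsK_shift (p : V → Option Bool) (C : Circuit V) (l' l : List (Option Bool)) :
    valsK p (List.map (shiftG l'.length) C) (l' ++ l) = l' ++ valsK p C l := by
  induction C generalizing l with
  | nil => rfl
  | cons g C ih =>
    simp only [List.map_cons, valsK, gateK_shift]
    rw [List.append_assoc, ih]

omit [DecidableEq V] in
lemma wireK_safe (p : V → Option Bool) (l l' : List (Option Bool)) (a : Wire V) :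
    wireK p (l ++ l') (safeW l.length a) = wireK p l a := by
  cases a with
  | var v => rfl
  | const b => rfl
  | gate j =>
    by_cases h : j < l.length
    · simp only [safeW, if_pos h, wireK]
      rw [List.getD_append _ _ _ _ h]
    · simp only [safeW, if_neg h, wireK]
      rw [List.getD_eq_default _ _ (by omega)]

/-- One step: `f = f (i := 0) ∨ (x i ∧ f (i := 1))`. -/
def blindStep (i : V) (D : Circuit V) (a : Wire V) : Circuit V :=
  List.map (substG i false) D ++ (List.map (shiftG D.length) (List.map (substG i true) D) ++
    [.and (.var i) (shiftW D.length (safeW D.length (substW i true a))),
      .or (safeW D.length (substW i false a)) (.gate (2 * D.length))])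

omit [DecidableEq V] in
lemma valsK_length' (p : V → Option Bool) (C : Circuit V) :
    (valsK p C []).length = C.length := by
  rw [valsK_length]
  simp

lemma blindStep_vals (i : V) (D : Circuit V) (a : Wire V) (p : V → Option Bool) :
    valsK p (blindStep i D a) [] =
      valsK (Function.update p i (some false)) D [] ++
        (valsK (Function.update p i (some true)) D [] ++
          [kAnd (p i) (kleene D (Function.update p i (some true)) a),
            kOr (kleene D (Function.update p i (some false)) a)
              (kAnd (p i) (kleene D (Function.update p i (some true)) a))]) := by
  unfold blindStep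
  have h1 := valsK_append p (List.map (substG i false) D)
    (List.map (shiftG D.length) (List.map (substG i true) D) ++
      [.and (.var i) (shiftW D.length (safeW D.length (substW i true a))),
        .or (safeW D.length (substW i false a)) (.gate (2 * D.length))]) []
  have h2 : ∀ l, valsK p (List.map (shiftG D.length) (List.map (substG i true) D) ++
      [.and (.var i) (shiftW D.length (safeW D.length (substW i true a))),
        .or (safeW D.length (substW i false a)) (.gate (2 * D.length))]) l = _ := fun l =>
    valsK_append p (List.map (shiftG D.length) (List.map (substG i true) D)) _ l
  refine h1.trans ?_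
  rw [h2, valsK_subst]
  set v0 := valsK (Function.update p i (some false)) D [] with hv0
  have hl0 : v0.length = D.length := valsK_length' _ _
  have h3 := valsK_shift p (List.map (substG i true) D) v0 []
  rw [hl0, List.append_nil, valsK_subst] at h3
  rw [h3]
  set v1 := valsK (Function.update p i (some true)) D [] with hv1
  have hl1 : v1.length = D.length := valsK_length' _ _
  have e1 : wireK p (v0 ++ v1) (shiftW D.length (safeW D.length (substW i true a)))
      = kleene D (Function.update p i (some true)) a := by
    have h4 := wireK_shift p v0 v1 (safeW D.length (substW i true a))
    rw [hl0] at h4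
    rw [h4]
    have h5 := wireK_safe p v1 [] (substW i true a)
    rw [hl1, List.append_nil] at h5
    rw [h5, wireK_subst]
    rfl
  have e2 : ∀ l', wireK p (v0 ++ l') (safeW D.length (substW i false a))
      = kleene D (Function.update p i (some false)) a := by
    intro l'
    have h5 := wireK_safe p v0 l' (substW i false a)
    rw [hl0] at h5
    rw [h5, wireK_subst]
    rfl
  have e2' : ∀ w, wireK p (v0 ++ v1 ++ [w]) (safeW D.length (substW i false a))
      = kleene D (Function.update p i (some false)) a := by
    intro w
    rw [List.append_assoc]
    exact e2 _
  have e3 : ∀ w, wireK p (v0 ++ v1 ++ [w]) (.gate (2 * D.length)) = w := by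
    intro w
    show List.getD (v0 ++ v1 ++ [w]) (2 * D.length) (some false) = _
    rw [List.getD_append_right _ _ _ _ (by
      rw [List.length_append, hl0, hl1]; omega), List.length_append, hl0, hl1]
    have h6 : 2 * D.length - (D.length + D.length) = 0 := by omega
    rw [h6]
    rfl
  simp only [valsK, gateK, e1, e2', e3]
  rw [List.append_assoc, List.append_assoc]
  rfl

lemma blindStep_kleene (i : V) (D : Circuit V) (a : Wire V) (p : V → Option Bool) :
    kleene (blindStep i D a) p (.gate (2 * D.length + 1)) =
      kOr (kleene D (Function.update p i (some false)) a)
        (kAnd (p i) (kleene D (Function.update p i (some true)) a)) := by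
  unfold kleene
  rw [blindStep_vals]
  show List.getD _ (2 * D.length + 1) (some false) = _
  rw [← List.append_assoc, List.getD_append_right _ _ _ _ (by
    rw [List.length_append, valsK_length', valsK_length']; omega), List.length_append,
    valsK_length', valsK_length']
  have h6 : 2 * D.length + 1 - (D.length + D.length) = 1 := by omega
  rw [h6]
  rfl

lemma update_some (x : V → Bool) (i : V) (c : Bool) :
    Function.update (fun v => some (x v)) i (some c)
      = fun v => some (Function.update x i c v) := by
  funext v
  by_cases h : v = i
  · subst h
    simp
  · simp [h]

lemma blindStep_val (i : V) (D : Circuit V) (a : Wire V) (x : V → Bool) :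
    (blindStep i D a).val x (.gate (2 * D.length + 1)) =
      (D.val (Function.update x i false) a || (x i && D.val (Function.update x i true) a)) := by
  have h1 := blindStep_kleene i D a fun v => some (x v)
  rw [update_some, update_some, kleene_total, kleene_total, kleene_total] at h1
  have h2 : ∀ b c d : Bool, kOr (some b) (kAnd (some c) (some d)) = some (b || (c && d)) := by
    decide
  rw [h2] at h1
  exact Option.some.inj h1

lemma blindStep_gateVals (i : V) (D : Circuit V) (a : Wire V) (x : V → Bool) :
    ∃ b c : Bool, gateVals x (blindStep i D a) [] =
      gateVals (Function.update x i false) D [] ++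
        (gateVals (Function.update x i true) D [] ++ [b, c]) := by
  have h1 := blindStep_vals i D a fun v => some (x v)
  have h3 : ∀ (y : V → Bool) (C : Circuit V),
      valsK (fun v => some (y v)) C [] = (gateVals y C []).map some := fun y C =>
    valsK_total y C []
  rw [update_some, update_some, h3, h3, h3, kleene_total, kleene_total] at h1
  refine ⟨x i && D.val (Function.update x i true) a,
    D.val (Function.update x i false) a || (x i && D.val (Function.update x i true) a), ?_⟩
  apply List.map_injective_iff.mpr (Option.some_injective Bool)
  rw [h1, List.map_append, List.map_append]
  have h2 : ∀ b c : Bool, kAnd (some b) (some c) = some (b && c) := by decide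
  have h4 : ∀ b c : Bool, kOr (some b) (some c) = some (b || c) := by decide
  rw [h2, h4]
  rfl

omit [DecidableEq V] in
lemma gateVals_length (x : V → Bool) (C : Circuit V) : (gateVals x C []).length = C.length := by
  have h1 : valsK (fun v => some (x v)) C [] = (gateVals x C []).map some := valsK_total x C []
  have h2 := valsK_length' (fun v => some (x v)) C
  rw [h1, List.length_map] at h2
  exact h2

omit [DecidableEq V] in
lemma notZip_map (h : Gate V → Gate V) (hh : ∀ g, (h g).isNot = g.isNot) (C : List (Gate V))
    (l : List Bool) :
    ((List.zip (List.map h C) l).filter (fun p => p.1.isNot)).map Prod.snd =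
      ((List.zip C l).filter (fun p => p.1.isNot)).map Prod.snd := by
  induction C generalizing l with
  | nil => rfl
  | cons g C ih =>
    cases l with
    | nil => rfl
    | cons b l =>
      simp only [List.map_cons, List.zip_cons_cons, List.filter_cons, hh]
      by_cases hg : g.isNot = true
      · simp only [hg, if_true, List.map_cons, ih]
      · simp only [hg, Bool.false_eq_true, if_false, ih]

lemma blindStep_notVals (i : V) (D : Circuit V) (a : Wire V) (x : V → Bool) :
    (blindStep i D a).notVals x =
      D.notVals (Function.update x i false) ++ D.notVals (Function.update x i true) := by
  obtain ⟨b, c, h⟩ := blindStep_gateVals i D a x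
  have hs : ∀ c g, (substG i c g).isNot = g.isNot := by
    intro c g
    cases g <;> rfl
  have ht : ∀ (k : ℕ) (g : Gate V), (shiftG k g).isNot = g.isNot := by
    intro k g
    cases g <;> rfl
  unfold Circuit.notVals
  rw [h]
  unfold blindStep
  rw [List.zip_append (by rw [List.length_map, gateVals_length]),
    List.zip_append (by rw [List.length_map, List.length_map, gateVals_length]),
    List.filter_append, List.filter_append, List.map_append, List.map_append,
    notZip_map _ (hs false), notZip_map _ (ht _), notZip_map _ (hs true)]
  simp [Gate.isNot]

lemma blindStep_size (i : V) (D : Circuit V) (a : Wire V) :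
    (blindStep i D a).size = 2 * D.size + 2 := by
  unfold blindStep Circuit.size
  simp only [List.length_append, List.length_map, List.length_cons, List.length_nil]
  ring

/-- **Circuits which do not see the zeros in `U`.** -/
theorem exists_blind (f : (V → Bool) → Bool) (hf : Monotone f) (U : Finset V) (C : Circuit V)
    (a : Wire V) (hC : ∀ x, C.val x a = f x) :
    ∃ (D : Circuit V) (b : Wire V), D.size + 2 ≤ 2 ^ U.card * (C.size + 2) ∧
      (∀ x, D.val x b = f x) ∧
      (∀ x, f x = true → kleene D (hide U ∅ x) b = some true) ∧
      ∀ x y, (∀ v, v ∉ U → x v = y v) → D.notVals x = D.notVals y := by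
  induction U using Finset.induction_on with
  | empty =>
    refine ⟨C, a, by simp, hC, fun x hx => ?_, fun x y hxy => ?_⟩
    · have h1 : hide (∅ : Finset V) ∅ x = fun v => some (x v) := by
        funext v
        simp [hide]
      rw [h1, kleene_total, hC, hx]
    · have h1 : x = y := funext fun v => hxy v (by simp)
      rw [h1]
  | insert i U hi ih =>
    obtain ⟨D, b, h1, h2, h3, h4⟩ := ih
    refine ⟨blindStep i D b, .gate (2 * D.length + 1), ?_, fun x => ?_, fun x hx => ?_,
      fun x y hxy => ?_⟩
    · rw [blindStep_size, Finset.card_insert_of_notMem hi, pow_succ]
      nlinarith
    · rw [blindStep_val, h2, h2]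
      cases hxi : x i
      · have h5 : Function.update x i false = x := by
          rw [← hxi]
          exact Function.update_eq_self i x
        rw [h5]
        simp
      · have h5 : Function.update x i true = x := by
          rw [← hxi]
          exact Function.update_eq_self i x
        have h6 : Function.update x i false ≤ x := by
          intro v
          by_cases hv : v = i
          · subst hv
            simp
          · simp [hv]
        have h7 := hf h6
        rw [h5, Bool.true_and]
        cases hfx : f (Function.update x i false)
        · simp
        · rw [hfx] at h7
          have h8 : f x = true := top_le_iff.mp h7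
          rw [h8]
          rfl
    · rw [blindStep_kleene]
      have hU : ∀ c : Bool, x i = c →
          Function.update (hide (insert i U) ∅ x) i (some c) = hide U ∅ x := by
        intro c hc
        funext v
        by_cases hv : v = i
        · subst hv
          simp [hide, hi, hc]
        · rw [Function.update_of_ne hv]
          simp [hide, hv]
      cases hxi : x i
      · rw [hU false hxi, h3 x hx]
        rfl
      · rw [hU true hxi, h3 x hx]
        have h5 : hide (insert i U) ∅ x i = some true := by
          simp [hide, hxi]
        rw [h5]
        have h6 : ∀ o : Option Bool, kOr o (kAnd (some true) (some true)) = some true := by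
          intro o
          rcases o with _ | (_ | _) <;> rfl
        exact h6 _
    · rw [blindStep_notVals, blindStep_notVals]
      congr 1
      · refine h4 _ _ fun v hv => ?_
        by_cases hvi : v = i
        · subst hvi
          simp
        · rw [Function.update_of_ne hvi, Function.update_of_ne hvi]
          exact hxy v (by simp [hvi, hv])
      · refine h4 _ _ fun v hv => ?_
        by_cases hvi : v = i
        · subst hvi
          simp
        · rw [Function.update_of_ne hvi, Function.update_of_ne hvi]
          exact hxy v (by simp [hvi, hv])

end Pool.Agent.NWE
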