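import Pool.Agent.NWE.Prod
import Pool.Agent.NWE.Defs

set_option autoImplicit false

/-!
# One-sided devices with few negated variables: the average case
-/

namespace Pool.Agent.NWE

open Pool.Agent.NTR.Gen Pool.Agent.GB24 Finset
open scoped BigOperators

/-- The negated variables in a set of at most `w` zeros can be guessed. -/
theorem exists_fam (K : MonoClass) {κ Y : Type} (F : Y → (κ ⊕ κ → Bool) → Bool)
    (hF : ∀ y, K.mem _ (F y)) (w : ℕ) :
    ∃ C : Y × (Fin w → Option κ) → (κ → Bool) → Bool, (∀ j, K.mem _ (C j)) ∧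
      (∀ j x, C j x = true → ∃ x', x' ≤ x ∧ F j.1 (Sum.elim x' fun i => !x' i) = true) ∧
      ∀ (x : κ → Bool) (y : Y) (Z : Finset κ), Z.card ≤ w → (∀ i ∈ Z, x i = false) →
        F y (Sum.elim x (Set.indicator (Z : Set κ) fun _ => true)) = true →
        ∃ j, C j x = true := by
  classical
  let In : (Fin w → Option κ) → κ → Prop := fun s i => ∃ a, s a = some i
  let φ : (Fin w → Option κ) → κ ⊕ κ → κ ⊕ Bool := fun s =>
    Sum.elim (fun i => if In s i then .inr false else .inl i) fun i => .inr (decide (In s i))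
  have hval : ∀ s (x : κ → Bool), (fun i => Sum.elim x id (φ s i)) =
      Sum.elim (fun i => if In s i then false else x i) fun i => decide (In s i) := by
    intro s x
    funext i
    rcases i with i | i
    · by_cases h : In s i <;> simp [φ, h]
    · simp [φ]
  refine ⟨fun j x => F j.1 fun i => Sum.elim x id (φ j.2 i), ?_, ?_, ?_⟩
  · rintro ⟨y, s⟩
    exact K.subst _ _ (F y) (φ s) (hF y)
  · rintro ⟨y, s⟩ x hj
    change F y (fun i => Sum.elim x id (φ s i)) = true at hj
    rw [hval] at hj
    refine ⟨fun i => if In s i then false else x i, fun i => ?_, ?_⟩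
    · by_cases h : In s i <;> simp [h]
    · refine Bool.le_iff_imp.mp (K.mono _ (F y) (hF y) fun i => ?_) hj
      rcases i with i | i
      · exact le_rfl
      · by_cases h : In s i <;> simp [h]
  · intro x y Z hZ h0 hy
    let s : Fin w → Option κ := fun a =>
      if h : (a : ℕ) < Z.card then some (Z.equivFin.symm ⟨a, h⟩ : {i // i ∈ Z}).1 else none
    have hsZ : ∀ i, In s i ↔ i ∈ Z := by
      intro i
      constructor
      · rintro ⟨a, ha⟩
        by_cases h : (a : ℕ) < Z.card
        · simp only [s, dif_pos h] at ha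
          rw [← Option.some.inj ha]
          exact (Z.equivFin.symm ⟨a, h⟩).2
        · simp only [s, dif_neg h] at ha
          exact absurd ha (by simp)
      · intro hi
        refine ⟨⟨Z.equivFin ⟨i, hi⟩, (Z.equivFin ⟨i, hi⟩).2.trans_le hZ⟩, ?_⟩
        simp only [s]
        rw [dif_pos (Z.equivFin ⟨i, hi⟩).2]
        simp
    refine ⟨(y, s), ?_⟩
    show F y (fun i => Sum.elim x id (φ s i)) = true
    rw [hval]
    have e1 : (fun i => if In s i then false else x i) = x := by
      funext i
      by_cases h : i ∈ Z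
      · rw [if_pos ((hsZ i).mpr h), h0 i h]
      · rw [if_neg (fun h' => h ((hsZ i).mp h'))]
    have e2 : (fun i => decide (In s i)) = Set.indicator (Z : Set κ) fun _ => true := by
      rw [ind_eq]
      funext i
      rw [Bool.eq_iff_iff, decide_eq_true_eq, decide_eq_true_eq]
      exact hsZ i
    rw [e1, e2]
    exact hy

open Classical in
/-- **Average case, one-sided, on a set `U`.** -/
theorem neg_average (K : MonoClass) {ι β Y : Type} [Fintype β] [DecidableEq β] [Fintype Y]
    {r w : ℕ} (g : (β → Bool) → Bool) (hg : Monotone g) (D : (β → Bool) → ℝ) (h0 : ∀ u, 0 ≤ D u)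
    (η : ℝ) (hη : ∀ h : (β → Bool) → Bool, K.mem β h → (∀ u, h u = true → g u = true) →
      ∑ u with h u = true, D u ≤ η)
    (U : Finset ι) (φ : ι → (Fin r × β) ⊕ Bool) (hU : ∀ v, v ∉ U → ∃ c, φ v = .inr c)
    (F : Y → (ι ⊕ ι → Bool) → Bool) (hF : ∀ y, K.mem _ (F y))
    (hle : ∀ y (x : Fin r × β → Bool), F y (lits fun v => Sum.elim x id (φ v)) = true →
      ∀ i, g (fun b => x (i, b)) = true) :
    ∀ A : Finset (Fin r × β → Bool), (∀ x ∈ A, ∃ (y : Y) (Z : Finset ι), Z ⊆ U ∧ Z.card ≤ w ∧
        (∀ v ∈ Z, (Sum.elim x id (φ v) : Bool) = false) ∧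
        F y (litsOn U Z fun v => Sum.elim x id (φ v)) = true) →
      ∑ x ∈ A, prodD D x ≤ (Fintype.card Y * (r * Fintype.card β + 1) ^ w : ℕ) * η ^ r := by
  intro A hA
  obtain ⟨C, hC, hCle, hCex⟩ := exists_fam K
    (fun y z => F y fun s => Sum.elim z id (litMap φ s))
    (fun y => K.subst _ _ (F y) (litMap φ) (hF y)) w
  have hsmall : ∀ j, ∑ x with C j x = true, prodD D x ≤ η ^ r := by
    intro j
    refine prod_small K g D h0 η hη (C j) (hC j) fun x hx i => ?_
    obtain ⟨x', hx', hF'⟩ := hCle j x hx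
    change F j.1 (fun s => Sum.elim (Sum.elim x' fun k => !x' k) id (litMap φ s)) = true at hF'
    rw [litMap_not] at hF'
    exact Bool.le_iff_imp.mp (hg fun b => hx' (i, b)) (hle j.1 x' hF' i)
  have hcov : ∀ x : Fin r × β → Bool, (∃ (y : Y) (Z : Finset ι), Z ⊆ U ∧ Z.card ≤ w ∧
        (∀ v ∈ Z, (Sum.elim x id (φ v) : Bool) = false) ∧
        F y (litsOn U Z fun v => Sum.elim x id (φ v)) = true) → ∃ j, C j x = true := by
    rintro x ⟨y, Z, -, hZ, h1, hy⟩
    have ha : ∀ v, (if v ∈ U then decide (v ∈ Z) else !(Sum.elim x id (φ v) : Bool)) = true →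
        v ∈ Z ∨ ∃ c, φ v = .inr c := by
      intro v hv
      by_cases hvU : v ∈ U
      · rw [if_pos hvU] at hv
        exact Or.inl (of_decide_eq_true hv)
      · exact Or.inr (hU v hvU)
    have hb : ∀ v, (if v ∈ U then decide (v ∈ Z) else !(Sum.elim x id (φ v) : Bool)) = true →
        Sum.elim x id (φ v) = false := by
      intro v hv
      by_cases hvU : v ∈ U
      · rw [if_pos hvU] at hv
        exact h1 v (of_decide_eq_true hv)
      · rw [if_neg hvU] at hv
        simpa using hv
    obtain ⟨Z', c1, c2, c3⟩ := restrict_core K (hF y) φ x Z _ ha hb hy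
    exact hCex x y Z' (c1.trans hZ) c2 c3
  have hnn : ∀ x, ∀ j ∈ (univ : Finset (Y × (Fin w → Option (Fin r × β)))),
      0 ≤ (if C j x = true then prodD D x else 0) := by
    intro x j _
    split_ifs
    · exact prodD_nonneg D h0 x
    · exact le_rfl
  calc ∑ x ∈ A, prodD D x
      ≤ ∑ x ∈ A, ∑ j, (if C j x = true then prodD D x else 0) := by
        refine Finset.sum_le_sum fun x hx => ?_
        obtain ⟨j, hj⟩ := hcov x (hA x hx)
        refine le_trans (le_of_eq ?_) (Finset.single_le_sum (hnn x) (mem_univ j))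
        rw [if_pos hj]
    _ ≤ ∑ x : Fin r × β → Bool, ∑ j, (if C j x = true then prodD D x else 0) :=
        Finset.sum_le_sum_of_subset_of_nonneg (Finset.subset_univ A)
          fun x _ _ => Finset.sum_nonneg (hnn x)
    _ = ∑ j, ∑ x with C j x = true, prodD D x := by
        rw [Finset.sum_comm]
        refine Finset.sum_congr rfl fun j _ => ?_
        rw [Finset.sum_filter]
    _ ≤ ∑ _j : Y × (Fin w → Option (Fin r × β)), η ^ r := Finset.sum_le_sum fun j _ => hsmall j
    _ = (Fintype.card Y * (r * Fintype.card β + 1) ^ w : ℕ) * η ^ r := by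
        rw [Finset.sum_const, nsmul_eq_mul, Finset.card_univ, Fintype.card_prod, Fintype.card_fun,
          Fintype.card_option, Fintype.card_prod, Fintype.card_fin, Fintype.card_fin]

end Pool.Agent.NWE
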