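import Pool.Agent.LocE.Lang

/-!
# The language: in one of two halves all copies are `1`
-/

namespace Pool.Agent.NWE

open Finset Pool.Agent.PolyTime Pool.Agent.NegLim Pool.Agent.NegLim.Lang Pool.Agent.NegLim.NPL
  Pool.Agent.LocE

/-- The language, on padded inputs. -/
def PLangA (a B : ℕ) (y : List Bool) : Prop :=
  ∃ h < 2, ∀ i < pr a B (wlen y), GAcc (2 * rt B (wlen y) ^ a) (rt B (wlen y) ^ (a + 1))
    (pq a B (wlen y)) y.length (wlen y) (lgc (wlen y))
    ((h * pr a B (wlen y) + i) * (rt B (wlen y) ^ (a + 1) * pq a B (wlen y))) (wbit y)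

section

variable {α : Type} [Ctx α]

theorem pd_plangA (a B : ℕ) : PD (fun y (_ : α) => PLangA a B y) := by
  have hr : ∀ {β : Type} [Ctx β], PF (fun y (_ : β) => rt B (wlen y)) := fun {β} _ =>
    pf_rt B pf_wlen
  have hq : ∀ {β : Type} [Ctx β], PF (fun y (_ : β) => pq a B (wlen y)) := fun {β} _ =>
    pf_gp ((PF.const 2).mul (hr.pow (a + 1)))
  have hpr : ∀ {β : Type} [Ctx β], PF (fun y (_ : β) => pr a B (wlen y)) := fun {β} _ =>
    pf_wlen.div (((PF.const 4).mul ((hr.pow (a + 1)).mul hq)).mul (pf_lgc pf_wlen))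
  have h1 : PD (fun y (r : (α × ℕ) × ℕ) => GAcc (2 * rt B (wlen y) ^ a)
      (rt B (wlen y) ^ (a + 1)) (pq a B (wlen y)) y.length (wlen y) (lgc (wlen y))
      ((r.1.2 * pr a B (wlen y) + r.2) * (rt B (wlen y) ^ (a + 1) * pq a B (wlen y)))
      (wbit y)) :=
    pd_gacc ((PF.const 2).mul (hr.pow a)) (hr.pow (a + 1)) hq
      (((PF.snd.fst.mul hpr).add PF.snd).mul ((hr.pow (a + 1)).mul hq))
  have h2 : PD (fun y (r : α × ℕ) => ∀ i < pr a B (wlen y), GAcc (2 * rt B (wlen y) ^ a)
      (rt B (wlen y) ^ (a + 1)) (pq a B (wlen y)) y.length (wlen y) (lgc (wlen y))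
      ((r.2 * pr a B (wlen y) + i) * (rt B (wlen y) ^ (a + 1) * pq a B (wlen y)))
      (wbit y)) :=
    PD.forall_lt (B := fun y (_ : α × ℕ) => pr a B (wlen y))
      (P := fun y (r : (α × ℕ) × ℕ) => GAcc (2 * rt B (wlen y) ^ a)
        (rt B (wlen y) ^ (a + 1)) (pq a B (wlen y)) y.length (wlen y) (lgc (wlen y))
        ((r.1.2 * pr a B (wlen y) + r.2) * (rt B (wlen y) ^ (a + 1) * pq a B (wlen y)))
        (wbit y)) hpr h1
  exact PD.exists_lt (B := fun (y : List Bool) (_ : α) => 2)
    (P := fun y (r : α × ℕ) => ∀ i < pr a B (wlen y), GAcc (2 * rt B (wlen y) ^ a)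
      (rt B (wlen y) ^ (a + 1)) (pq a B (wlen y)) y.length (wlen y) (lgc (wlen y))
      ((r.2 * pr a B (wlen y) + i) * (rt B (wlen y) ^ (a + 1) * pq a B (wlen y)))
      (wbit y)) (PF.const 2) h2

end

open Classical in
theorem plangA_polyTime (a B : ℕ) : Nonempty (Turing.TM2ComputableInPolyTime
    (id : List Bool → List Bool) (id : List Bool → List Bool)
    (fun y => [decide (PLangA a B y)])) := by
  apply PFBits.polyTime
  refine ⟨fun _ => 1, fun w _ => if PLangA a B w then 1 else 0, PF.const 1, ?_, ?_⟩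
  · exact PF.ite (P := fun w (_ : Unit × ℕ) => PLangA a B w) (pd_plangA a B) (PF.const 1)
      (PF.const 0)
  · intro w
    by_cases h : PLangA a B w <;> simp [h]

open Classical in
/-- The language. -/
noncomputable def langA (a B d : ℕ) (x : List Bool) : Bool :=
  decide (PLangA a B (padW (x.length / d) x))

theorem langA_time (a B : ℕ) : ∃ d : ℕ, 1 ≤ d ∧ ∃ c : ℕ,
    DecidableInTime (langA a B d) (fun n => c * 2 ^ n) := by
  classical
  obtain ⟨d, hd, c, hc⟩ := decidable_of_padded (fun y => decide (PLangA a B y)) (by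
    have := plangA_polyTime a B
    convert this)
  refine ⟨d, hd, c, ?_⟩
  convert hc using 2
  unfold langA
  congr

open Classical in
lemma langA_eq_true_iff (a B d : ℕ) (x : List Bool) :
    langA a B d x = true ↔ PLangA a B (padW (x.length / d) x) := by
  unfold langA
  exact decide_eq_true_iff

/-- Monotonicity. -/
lemma langA_mono (a B d n : ℕ) : Monotone fun x : Fin n → Bool => langA a B d (List.ofFn x) := by
  intro x y hxy
  rw [Bool.le_iff_imp]
  simp only
  intro hx
  rw [langA_eq_true_iff] at hx ⊢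
  unfold PLangA at hx ⊢
  have hb : ∀ i, wbit (padW ((List.ofFn x).length / d) (List.ofFn x)) i = true →
      wbit (padW ((List.ofFn y).length / d) (List.ofFn y)) i = true := by
    intro i hi
    rw [wbit_padW] at hi ⊢
    by_cases hlt : i < n
    · rw [List.getD_eq_getElem _ _ (by simpa using hlt), List.getElem_ofFn] at hi ⊢
      exact Bool.le_iff_imp.mp (hxy _) hi
    · rw [List.getD_eq_default _ _ (by simpa using hlt)] at hi
      exact absurd hi (by simp)
  rw [wlen_padW, length_padW] at hx ⊢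
  simp only [List.length_ofFn] at hx hb ⊢
  obtain ⟨h, hh, H⟩ := hx
  refine ⟨h, hh, fun k hk => ?_⟩
  obtain ⟨u, hu, H'⟩ := H k hk
  refine ⟨u, hu, fun i hi => ?_⟩
  obtain ⟨s, hs, h0, h1, p, hp, h2, h3⟩ := H' i hi
  exact ⟨s, hs, h0, h1, p, hp, hb _ h2, fun t ht => hb _ (h3 t ht)⟩

/-- The meaning of the language, under the assumptions on the parameters. -/
theorem langA_iff (a B d n q l : ℕ) [Fact q.Prime] (hq : q = pq a B n) (hl : l = lgc n)
    (hS : q ^ (2 * rt B n ^ a + 1) ≤ 2 ^ (n / d)) (hl2 : 2 ^ (l - 1) ≤ n + 1)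
    (x : Fin n → Bool) :
    langA a B d (List.ofFn x) = true ↔
      ∃ h < 2, ∀ k < pr a B n, ∃ c : Fin (2 * rt B n ^ a) → ZMod q, ∀ i < rt B n ^ (a + 1),
        ∃ p < n, (List.ofFn x).getD p false = true ∧ ∀ t < l,
          (List.ofFn x).getD ((((h * pr a B n + k) * (rt B n ^ (a + 1) * q)
            + (i * q + (pval c i).val)) * l + t) * 2 + p / 2 ^ t % 2) false = true := by
  classical
  rw [langA_eq_true_iff]
  unfold PLangA
  rw [wlen_padW, length_padW, List.length_ofFn, ← hq, ← hl]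
  have hb : ∀ i, wbit (padW (n / d) (List.ofFn x)) i = (List.ofFn x).getD i false :=
    fun i => wbit_padW _ _ i
  have hb' : wbit (padW (n / d) (List.ofFn x)) = fun i => (List.ofFn x).getD i false := funext hb
  rw [hb']
  have hS' : q ^ (2 * rt B n ^ a + 1) ≤ 2 ^ (n / d) + (n + 1) := hS.trans (Nat.le_add_right _ _)
  have hpos : 0 < 2 ^ (n / d) := by positivity
  refine exists_congr fun h => and_congr_right fun _ => forall₂_congr fun k _ => ?_
  rw [gacc_iff_acc, acc_iff hS']
  refine exists_congr fun c => forall₂_congr fun i _ => ?_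
  rw [decide_eq_true_eq, sv_iff (by omega)]

end Pool.Agent.NWE
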