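import Pool.Agent.LocE.Num

set_option autoImplicit false

/-!
# The choice of the parameters
-/

namespace Pool.Agent.NWE

open Finset Pool.Agent.NegLim Pool.Agent.NegLim.Lang Pool.Agent.NegLim.NPL Pool.Agent.LocE

lemma two_rpow_le (a b n R : ℕ) (δ : ℝ) (hδ : 0 < δ) (hδ1 : δ ≤ 1) (hR1 : 1 ≤ R)
    (ha : δ * b < a) (hRb : n < (R + 1) ^ b)
    (hRK : ((2 : ℝ) * 2 ^ b) ^ (1 / ((a : ℝ) - δ * b)) ≤ R) :
    2 * (n : ℝ) ^ δ ≤ (R : ℝ) ^ a := by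
  have hη : 0 < (a : ℝ) - δ * b := by linarith
  have hR0 : (0 : ℝ) < R := by exact_mod_cast hR1
  have hC0 : (0 : ℝ) < 2 * 2 ^ b := by positivity
  have hb1 : (1 : ℝ) ≤ 2 ^ b := one_le_pow₀ (by norm_num)
  have hn1 : (n : ℝ) ≤ 2 ^ b * (R : ℝ) ^ b := by
    have h1 : (n : ℝ) ≤ ((R : ℝ) + 1) ^ b := by exact_mod_cast hRb.le
    refine h1.trans ?_
    rw [← mul_pow]
    apply pow_le_pow_left₀ (by positivity)
    have : (1 : ℝ) ≤ R := by exact_mod_cast hR1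
    linarith
  have h2 : (2 : ℝ) * 2 ^ b ≤ (R : ℝ) ^ ((a : ℝ) - δ * b) := by
    calc (2 : ℝ) * 2 ^ b = ((2 * 2 ^ b : ℝ) ^ (1 / ((a : ℝ) - δ * b))) ^ ((a : ℝ) - δ * b) := by
          rw [← Real.rpow_mul hC0.le, one_div, inv_mul_cancel₀ hη.ne', Real.rpow_one]
      _ ≤ (R : ℝ) ^ ((a : ℝ) - δ * b) := Real.rpow_le_rpow (by positivity) hRK hη.le
  calc 2 * (n : ℝ) ^ δ ≤ 2 * (2 ^ b * (R : ℝ) ^ b) ^ δ := by
        apply mul_le_mul_of_nonneg_left _ (by norm_num)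
        exact Real.rpow_le_rpow (by positivity) hn1 hδ.le
    _ = 2 * ((2 ^ b : ℝ) ^ δ * ((R : ℝ) ^ b) ^ δ) := by
        rw [Real.mul_rpow (by positivity) (by positivity)]
    _ ≤ 2 * (2 ^ b * ((R : ℝ) ^ b) ^ δ) := by
        apply mul_le_mul_of_nonneg_left _ (by norm_num)
        apply mul_le_mul_of_nonneg_right _ (by positivity)
        calc (2 ^ b : ℝ) ^ δ ≤ (2 ^ b : ℝ) ^ (1 : ℝ) :=
              Real.rpow_le_rpow_of_exponent_le hb1 hδ1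
          _ = 2 ^ b := Real.rpow_one _
    _ = (2 * 2 ^ b) * (R : ℝ) ^ (δ * b) := by
        rw [← Real.rpow_natCast (R : ℝ) b, ← Real.rpow_mul hR0.le, mul_comm (b : ℝ) δ]
        ring
    _ ≤ (R : ℝ) ^ ((a : ℝ) - δ * b) * (R : ℝ) ^ (δ * b) :=
        mul_le_mul_of_nonneg_right h2 (by positivity)
    _ = (R : ℝ) ^ a := by
        rw [← Real.rpow_add hR0, ← Real.rpow_natCast]
        congr 1
        ring

/-- The size of the circuit for one block. -/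
lemma size_block (n R l a P S : ℕ) (δ : ℝ) (h : 2 * (n : ℝ) ^ δ ≤ (R : ℝ) ^ a)
    (hP : P ≤ 2 ^ l) (hl : 2 * l + 6 < R ^ a) (hS : (S : ℝ) ≤ 2 ^ ((n : ℝ) ^ δ)) :
    4 * P * (S + 1) < 2 ^ (R ^ a) := by
  have hS2 : S ^ 2 ≤ 2 ^ (R ^ a) := by
    have h1 : (S : ℝ) ^ 2 ≤ (2 ^ ((n : ℝ) ^ δ)) ^ 2 := pow_le_pow_left₀ (by positivity) hS 2
    have h2 : ((2 : ℝ) ^ ((n : ℝ) ^ δ)) ^ 2 = 2 ^ (2 * (n : ℝ) ^ δ) := by
      rw [← Real.rpow_natCast, ← Real.rpow_mul (by norm_num)]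
      congr 1
      push_cast
      ring
    rw [h2] at h1
    have h3 : (2 : ℝ) ^ (2 * (n : ℝ) ^ δ) ≤ 2 ^ ((R : ℝ) ^ a) :=
      Real.rpow_le_rpow_of_exponent_le (by norm_num) h
    have h4 : (2 : ℝ) ^ ((R : ℝ) ^ a) = ((2 ^ (R ^ a) : ℕ) : ℝ) := by
      rw [show ((R : ℝ) ^ a) = ((R ^ a : ℕ) : ℝ) by push_cast; rfl, Real.rpow_natCast]
      push_cast
      rfl
    rw [h4] at h3
    exact_mod_cast h1.trans h3
  have hS3 : (S + 1) ^ 2 ≤ 4 * 2 ^ (R ^ a) := by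
    have h1 : 1 ≤ 2 ^ (R ^ a) := Nat.one_le_two_pow
    rcases Nat.eq_zero_or_pos S with h0 | h0
    · subst h0; omega
    · nlinarith
  apply lt_of_pow_lt_pow_left₀ 2 (by positivity)
  calc (4 * P * (S + 1)) ^ 2 = 16 * P ^ 2 * (S + 1) ^ 2 := by ring
    _ ≤ 16 * (2 ^ l) ^ 2 * (4 * 2 ^ (R ^ a)) :=
        Nat.mul_le_mul (Nat.mul_le_mul_left _ (Nat.pow_le_pow_left hP 2)) hS3
    _ = 2 ^ (2 * l + 6 + R ^ a) := by
        rw [pow_add, pow_add, ← pow_mul, mul_comm l 2]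
        ring
    _ < 2 ^ (R ^ a * 2) := Nat.pow_lt_pow_right (by norm_num) (by omega)
    _ = (2 ^ (R ^ a)) ^ 2 := pow_mul _ _ _

theorem nwe_numbers (δ ε : ℝ) (hδ : 0 < δ) (hε : 0 < ε) (h1 : 2 * δ + ε < 1) : ∃ a B : ℕ,
    ∀ d : ℕ, 1 ≤ d → ∃ n₀ : ℕ, ∀ n ≥ n₀, ∃ M k L : ℕ,
      (pq a B n).Prime ∧ 1 ≤ rt B n ^ a ∧ 2 * rt B n ^ a ≤ rt B n ^ (a + 1) ∧
      rt B n ^ (a + 1) ≤ pq a B n ∧ 256 * (M + 1) ≤ pq a B n ∧ 2 * rt B n ^ a < 2 ^ L ∧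
      (rt B n ^ (a + 1) * pq a B n + 1) ^ (2 * rt B n ^ a) * 4 ^ (rt B n ^ a) ≤ 4 ^ k ∧
      2 * (L * k) ≤ M + 1 ∧ pq a B n ^ (2 * rt B n ^ a + 1) ≤ 2 ^ (n / d) ∧
      2 ^ (lgc n - 1) ≤ n + 1 ∧ n < 2 ^ (lgc n) ∧ 2 ≤ lgc n ∧ 1 ≤ n ∧
      (4 * (rt B n ^ (a + 1) * pq a B n) * lgc n : ℝ) ≤ (n : ℝ) ^ (2 * δ + ε) ∧
      (16 * (rt B n ^ (a + 1) * pq a B n) * lgc n ^ 2 : ℝ)
        ≤ (rt B n : ℝ) ^ a * (n : ℝ) ^ (δ + ε) ∧
      ∀ S : ℕ, (S : ℝ) ≤ 2 ^ ((n : ℝ) ^ δ) →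
        (S : ℝ) * (2 * (1 / 4) ^ (rt B n ^ a))
          + (pq a B n : ℝ) ^ (2 * rt B n ^ a) * (1 / 2) ^ (rt B n ^ (a + 1))
          ≤ (1 / 2) ^ (rt B n ^ a) := by
  set B := ⌈5 / ε⌉₊ + 1 with hB
  set a := ⌊δ * B⌋₊ + 1 with ha
  have hεB : 5 < ε * B := by
    have h1 : 5 / ε ≤ (⌈5 / ε⌉₊ : ℝ) := Nat.le_ceil _
    have h2 : 5 ≤ ε * (⌈5 / ε⌉₊ : ℝ) := by
      rw [div_le_iff₀ hε] at h1
      linarith
    rw [hB]
    push_cast
    linarith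
  have ha1 : δ * B < a := by
    rw [ha]
    push_cast
    exact Nat.lt_floor_add_one _
  have ha2 : (a : ℝ) ≤ δ * B + 1 := by
    have h1 : (⌊δ * B⌋₊ : ℝ) ≤ δ * B := Nat.floor_le (by positivity)
    rw [ha]
    push_cast
    linarith
  have haa : 1 ≤ a := by omega
  have hB1 : 1 ≤ B := by omega
  have hB0 : (0 : ℝ) < B := by exact_mod_cast hB1
  have hγ : (2 * a + 3 : ℝ) ≤ (2 * δ + ε) * B := by nlinarith
  have hγ2 : (a + 3 : ℝ) ≤ (δ + ε) * B := by nlinarith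
  have haB : 2 * a + 4 ≤ B := by
    have h2 : 2 * (a : ℝ) + 3 < B := by nlinarith
    have h3 : 2 * a + 3 < B := by exact_mod_cast h2
    omega
  refine ⟨a, B, fun d hd => ?_⟩
  set K := 2 ^ 12 + d + ⌈((2 : ℝ) * 2 ^ B) ^ (1 / ((a : ℝ) - δ * B))⌉₊ with hK
  obtain ⟨n1, hn1⟩ := root_large B 1 K hB1 (le_refl 1)
  refine ⟨max n1 1, fun n hn => ?_⟩
  have hn1' : n1 ≤ n := (le_max_left _ _).trans hn
  have hn0 : 1 ≤ n := (le_max_right _ _).trans hn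
  have hlarge := hn1 n hn1'
  rw [Nat.div_one] at hlarge
  obtain ⟨hRB, hRB2⟩ := rt_spec B n hB1
  set R := rt B n with hR
  set l := lgc n with hl
  have hleq : l = Nat.log 2 (n + 1) + 1 := lgc_eq n
  rw [← hleq] at hlarge
  have hl1 : 1 ≤ l := by omega
  have hl2' : 1 ≤ l ^ 2 := Nat.one_le_pow _ _ hl1
  have hl2 : l ≤ l ^ 2 := by
    calc l = l * 1 := (mul_one l).symm
      _ ≤ l * l := Nat.mul_le_mul_left l hl1
      _ = l ^ 2 := (sq l).symm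
  have hRK : K ≤ R := (Nat.le_mul_of_pos_right K hl2').trans hlarge
  have hRl : 2 ^ 12 * l ^ 2 ≤ R := by
    refine le_trans (Nat.mul_le_mul_right _ ?_) hlarge
    rw [hK]
    omega
  have hR1 : 1 ≤ R := by
    have : 1 ≤ K := by rw [hK]; omega
    omega
  have hRd : d ≤ R := by
    refine le_trans ?_ hRK
    rw [hK]
    omega
  have hX2 : 2 ≤ 2 * R ^ (a + 1) := by
    have : 1 ≤ R ^ (a + 1) := Nat.one_le_pow _ _ hR1
    omega
  obtain ⟨hqp, hq1, hq2⟩ := gp_spec (2 * R ^ (a + 1)) hX2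
  have hpq : pq a B n = gp (2 * R ^ (a + 1)) := rfl
  rw [hpq]
  set q := gp (2 * R ^ (a + 1)) with hq
  obtain ⟨M, k, L, c1, c2, c3, c4, c5, c6, c7, c8, c9, c10⟩ :=
    nat_numbers a B n d R l q haB hd hRB hleq hRl hRd hqp hq1 hq2
  have hnl : n + 1 < 2 ^ l := by rw [hleq]; exact Nat.lt_pow_succ_log_self (by norm_num) _
  have hR0 : (0 : ℝ) < R := by exact_mod_cast hR1
  have hRa : R ≤ R ^ a := by
    calc R = R ^ 1 := (pow_one R).symm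
      _ ≤ R ^ a := Nat.pow_le_pow_right hR1 haa
  have hll : 2 ≤ l := by
    have h2 : 1 ≤ Nat.log 2 (n + 1) := Nat.le_log_of_pow_le (by norm_num) (by omega)
    omega
  have hpow : ∀ (e : ℕ) (γ : ℝ), 0 ≤ γ → (e : ℝ) ≤ γ * B → (R : ℝ) ^ e ≤ (n : ℝ) ^ γ := by
    intro e γ hγ0 he
    calc (R : ℝ) ^ e = (R : ℝ) ^ (e : ℝ) := by rw [Real.rpow_natCast]
      _ ≤ (R : ℝ) ^ (γ * B) := Real.rpow_le_rpow_of_exponent_le (by exact_mod_cast hR1) he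
      _ = ((R : ℝ) ^ B) ^ γ := by
          rw [← Real.rpow_natCast, ← Real.rpow_mul hR0.le]
          congr 1
          ring
      _ ≤ (n : ℝ) ^ γ := by
          apply Real.rpow_le_rpow (by positivity) _ hγ0
          exact_mod_cast hRB
  have hNq : R ^ (a + 1) * q ≤ 2 * R ^ (2 * a + 2) := by
    calc R ^ (a + 1) * q ≤ R ^ (a + 1) * (2 * R ^ (a + 1)) := Nat.mul_le_mul_left _ hq1
      _ = 2 * R ^ (2 * a + 2) := by ring
  have hNqn : R ^ (a + 1) * q ≤ n := by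
    refine hNq.trans ?_
    calc 2 * R ^ (2 * a + 2) ≤ R * R ^ (2 * a + 2) := by
          apply Nat.mul_le_mul_right
          have : 2 ^ 12 ≤ R := le_trans (Nat.le_mul_of_pos_right _ hl2') hRl
          omega
      _ = R ^ (2 * a + 3) := by ring
      _ ≤ R ^ B := Nat.pow_le_pow_right hR1 (by omega)
      _ ≤ n := hRB
  refine ⟨M, k, L, hqp, c1, c2, c3, c4, c5, c6, c7, c8, ?_, by omega, hll, hn0, ?_, ?_, ?_⟩
  · have h2 : l - 1 = Nat.log 2 (n + 1) := by omega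
    rw [h2]
    exact Nat.pow_log_le_self 2 (by omega)
  · have h2 : (8 * ((R : ℝ) ^ (a + 1) * q) * l : ℝ) ≤ (R : ℝ) ^ (2 * a + 3) := by exact_mod_cast c9
    have h3 : (0 : ℝ) ≤ (R : ℝ) ^ (a + 1) * q * l := by positivity
    refine le_trans ?_ (hpow (2 * a + 3) (2 * δ + ε) (by positivity) (by push_cast; exact hγ))
    linarith
  · have h2 : 16 * (R ^ (a + 1) * q) * l ^ 2 ≤ R ^ a * R ^ (a + 3) := by
      calc 16 * (R ^ (a + 1) * q) * l ^ 2 ≤ 16 * (2 * R ^ (2 * a + 2)) * l ^ 2 :=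
            Nat.mul_le_mul_right _ (Nat.mul_le_mul_left 16 hNq)
        _ = (32 * l ^ 2) * R ^ (2 * a + 2) := by ring
        _ ≤ R * R ^ (2 * a + 2) := by
            apply Nat.mul_le_mul_right
            refine le_trans ?_ hRl
            exact Nat.mul_le_mul_right _ (by norm_num)
        _ = R ^ a * R ^ (a + 3) := by ring
    have h3 : (16 * ((R : ℝ) ^ (a + 1) * q) * l ^ 2 : ℝ) ≤ (R : ℝ) ^ a * (R : ℝ) ^ (a + 3) := by
      exact_mod_cast h2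
    refine h3.trans (mul_le_mul_of_nonneg_left ?_ (by positivity))
    exact hpow (a + 3) (δ + ε) (by positivity) (by push_cast; exact hγ2)
  · intro S hS
    have h2 : 2 * (n : ℝ) ^ δ ≤ (R : ℝ) ^ a :=
      two_rpow_le a B n R δ hδ (by linarith) hR1 ha1 hRB2 (by
        have h4 : ⌈((2 : ℝ) * 2 ^ B) ^ (1 / ((a : ℝ) - δ * B))⌉₊ ≤ R := by
          refine le_trans ?_ hRK
          rw [hK]
          omega
        exact (Nat.le_ceil _).trans (by exact_mod_cast h4))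
    have h3 : 4 * (R ^ (a + 1) * q) * (S + 1) < 2 ^ (R ^ a) :=
      size_block n R l a (R ^ (a + 1) * q) S δ h2 (by omega) (by
        have h5 : 2 ^ 12 * l ≤ R := (Nat.mul_le_mul_left _ hl2).trans hRl
        omega) hS
    have hS1 : 4 * S ≤ 2 ^ (R ^ a) := by
      have hP : 1 ≤ R ^ (a + 1) * q := Nat.one_le_iff_ne_zero.mpr (by
        have := hqp.pos
        positivity)
      calc 4 * S ≤ 4 * (S + 1) := by omega
        _ = 4 * 1 * (S + 1) := by ring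
        _ ≤ 4 * (R ^ (a + 1) * q) * (S + 1) :=
            Nat.mul_le_mul_right _ (Nat.mul_le_mul_left 4 hP)
        _ ≤ 2 ^ (R ^ a) := h3.le
    have hS1' : (4 : ℝ) * S ≤ 2 ^ (R ^ a) := by exact_mod_cast hS1
    have hNeq : R ^ (a + 1) = R ^ a * R := pow_succ R a
    have hql : q ≤ 2 ^ l := by
      have h5 : q ≤ R ^ (a + 1) * q := Nat.le_mul_of_pos_left _ (by positivity)
      omega
    have h4 : 2 * q ^ (2 * R ^ a) * 2 ^ (R ^ a) ≤ 2 ^ (R ^ (a + 1)) := by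
      calc 2 * q ^ (2 * R ^ a) * 2 ^ (R ^ a)
          ≤ 2 * (2 ^ l) ^ (2 * R ^ a) * 2 ^ (R ^ a) :=
            Nat.mul_le_mul_right _ (Nat.mul_le_mul_left _ (Nat.pow_le_pow_left hql _))
        _ = 2 ^ (1 + l * (2 * R ^ a) + R ^ a) := by
            generalize R ^ a = Ra
            have h20 : (2 : ℕ) ^ (1 + l * (2 * Ra) + Ra) = 2 ^ 1 * 2 ^ (l * (2 * Ra)) * 2 ^ Ra := by
              rw [pow_add, pow_add]
            have h21 : ((2 : ℕ) ^ l) ^ (2 * Ra) = 2 ^ (l * (2 * Ra)) := (pow_mul 2 l (2 * Ra)).symm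
            rw [h20, h21, pow_one]
        _ ≤ 2 ^ (R ^ (a + 1)) := by
            apply Nat.pow_le_pow_right (by norm_num)
            have h6 : 1 ≤ R ^ a := Nat.one_le_pow _ _ hR1
            have h7 : R ^ a ≤ l * R ^ a := Nat.le_mul_of_pos_left _ (by omega)
            have h8 : 4 * (l * R ^ a) ≤ R ^ (a + 1) := by
              calc 4 * (l * R ^ a) = R ^ a * (4 * l) := by ring
                _ ≤ R ^ a * R := Nat.mul_le_mul_left _ (by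
                    have h5 : 2 ^ 12 * l ≤ R := (Nat.mul_le_mul_left _ hl2).trans hRl
                    omega)
                _ = R ^ (a + 1) := hNeq.symm
            have h9 : l * (2 * R ^ a) = 2 * (l * R ^ a) := by ring
            omega
    have h5 : (2 : ℝ) * (q : ℝ) ^ (2 * R ^ a) * 2 ^ (R ^ a) ≤ 2 ^ (R ^ (a + 1)) := by
      exact_mod_cast h4
    have h7 : (0 : ℝ) < 2 ^ (R ^ a) := by positivity
    have h7' : (0 : ℝ) < 2 ^ (R ^ (a + 1)) := by positivity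
    have hhalf : ((1 : ℝ) / 2) ^ (R ^ a) = 1 / 2 ^ (R ^ a) := by rw [div_pow, one_pow]
    have e1 : (S : ℝ) * (2 * (1 / 4) ^ (R ^ a)) ≤ (1 / 2) ^ (R ^ a) / 2 := by
      have h6 : ((1 : ℝ) / 4) ^ (R ^ a) = 1 / (2 ^ (R ^ a) * 2 ^ (R ^ a)) := by
        rw [div_pow, one_pow, ← mul_pow]
        norm_num
      rw [h6, hhalf]
      have h8 : (S : ℝ) * (2 * (1 / (2 ^ (R ^ a) * 2 ^ (R ^ a)))) =
          (4 * S / 2 ^ (R ^ a)) * (1 / 2 ^ (R ^ a) / 2) := by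
        field_simp
        ring
      rw [h8]
      refine mul_le_of_le_one_left (by positivity) ?_
      rw [div_le_one h7]
      exact hS1'
    have e2 : (q : ℝ) ^ (2 * R ^ a) * (1 / 2) ^ (R ^ (a + 1)) ≤ (1 / 2) ^ (R ^ a) / 2 := by
      have h6 : ((1 : ℝ) / 2) ^ (R ^ (a + 1)) = 1 / 2 ^ (R ^ (a + 1)) := by rw [div_pow, one_pow]
      rw [h6, hhalf, mul_one_div, div_div, div_le_div_iff₀ h7' (by positivity)]
      nlinarith
    linarith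

end Pool.Agent.NWE
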