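import Pool.Agent.NWE.SetM
import Pool.Agent.NWE.Addr
import Pool.Agent.NWE.Num
import Pool.Agent.GB24.CircClass

set_option autoImplicit false

/-!
# The main theorem
-/

namespace Pool.Agent.NWE

open Finset Pool.Agent.NegLim Pool.Agent.NegLim.Lang Pool.Agent.NegLim.NPL Pool.Agent.NTR
  Pool.Agent.LocE Pool.Agent.GB24
open scoped BigOperators

/-- One length and one set `U`. -/
theorem one_length (a B d n q M k L r' S : ℕ) [Fact q.Prime] (hq : q = pq a B n)
    (hw : 1 ≤ rt B n ^ a) (h2w : 2 * rt B n ^ a ≤ rt B n ^ (a + 1))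
    (hNq : rt B n ^ (a + 1) ≤ q) (hM : 256 * (M + 1) ≤ q) (hL : 2 * rt B n ^ a < 2 ^ L)
    (hk : (rt B n ^ (a + 1) * q + 1) ^ (2 * rt B n ^ a) * 4 ^ (rt B n ^ a) ≤ 4 ^ k)
    (hLk : 2 * (L * k) ≤ M + 1) (hS : q ^ (2 * rt B n ^ a + 1) ≤ 2 ^ (n / d))
    (hl2 : 2 ^ (lgc n - 1) ≤ n + 1) (hnl : n ≤ 2 ^ lgc n) (hl : 2 ≤ lgc n)
    (herr : (S : ℝ) * (2 * (1 / 4) ^ (rt B n ^ a))
      + (q : ℝ) ^ (2 * rt B n ^ a) * (1 / 2) ^ (rt B n ^ (a + 1)) ≤ (1 / 2) ^ (rt B n ^ a))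
    (U : Finset (Fin n)) (hr : r' * (4 * (rt B n ^ (a + 1) * q) * lgc n) ≤ U.card) :
    ∃ (ρ : Fin n → Bool) (H : Finset (Fin n → Bool)), H.Nonempty ∧
      (∀ x ∈ H, langA a B d (List.ofFn x) = true ∧ ∀ v, v ∉ U → x v = ρ v) ∧
      ∀ (t w : ℕ) (C : (Fin t → Bool) → Circuit (Fin n ⊕ Fin n))
        (out : (Fin t → Bool) → Wire (Fin n ⊕ Fin n)),
        (∀ y, (C y).negs = 0 ∧ (C y).size ≤ S) →
        (∀ y (x : Fin n → Bool), (∀ v, v ∉ U → x v = ρ v) →
          (C y).val (lits x) (out y) = true → langA a B d (List.ofFn x) = true) →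
        ∀ A ⊆ H, (∀ x ∈ A, ∃ (y : Fin t → Bool) (Z : Finset (Fin n)),
          Z ⊆ U ∧ Z.card ≤ w ∧ (∀ v ∈ Z, x v = false) ∧
            (C y).val (litsOn U Z x) (out y) = true) →
          (A.card : ℝ) ≤ (2 ^ t * (r' * (rt B n ^ (a + 1) * q) + 1) ^ w : ℕ)
            * ((1 / 2 : ℝ) ^ (rt B n ^ a)) ^ r' * H.card := by
  classical
  have hN : 1 ≤ rt B n ^ (a + 1) := by omega
  obtain ⟨φ, hφ, hφf⟩ := exists_restrictionA a B d n q hq hS hl2 hl hnl hN U r' hr
  let G := graphSet (rt B n ^ (a + 1)) (rt B n ^ a) q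
  have hG : G.Nonempty := by
    rw [← Finset.card_pos, card_graphSet _ _ _ h2w hNq]
    have hqp : q.Prime := Fact.out
    exact pow_pos hqp.pos _
  let E : (Fin r' × (Fin (rt B n ^ (a + 1)) × ZMod q) → Bool) → (Fin n → Bool) :=
    fun y v => Sum.elim y id (φ v)
  have hE : Set.InjOn E (tup G r' : Set (Fin r' × (Fin (rt B n ^ (a + 1)) × ZMod q) → Bool)) :=
    subst_injOn (polyFn q (rt B n ^ a) (rt B n ^ (a + 1))) G
      (fun u hu => graphSet_polyFn _ _ _ u hu) (fun u hu u' => graphSet_min _ _ _ u hu u')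
      (fun x => langA a B d (List.ofFn x)) φ hφf
  refine ⟨E fun _ => true, (tup G r').image E, (tup_nonempty hG).image E, ?_, ?_⟩
  · intro x hx
    obtain ⟨y, hy, rfl⟩ := Finset.mem_image.mp hx
    refine ⟨(hφf y).mpr fun i => graphSet_polyFn _ _ _ _ (mem_tup.mp hy i), fun v hv => ?_⟩
    obtain ⟨c, hc⟩ := hφ v hv
    simp only [E, hc, Sum.elim_inr]
  · intro t w C out hC hle A hAH hA
    have hA0 : ((tup G r').filter fun y => E y ∈ A) ⊆ tup G r' := Finset.filter_subset _ _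
    have hcardH : ((tup G r').image E).card = (tup G r').card :=
      Finset.card_image_of_injOn hE
    have hAcard : A.card ≤ ((tup G r').filter fun y => E y ∈ A).card := by
      have h1 : A ⊆ ((tup G r').filter fun y => E y ∈ A).image E := by
        intro x hx
        obtain ⟨y, hy, rfl⟩ := Finset.mem_image.mp (hAH hx)
        exact Finset.mem_image_of_mem E (Finset.mem_filter.mpr ⟨hy, hx⟩)
      exact (Finset.card_le_card h1).trans Finset.card_image_le
    have hmain := neg_average (circClass S) (w := w)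
      (polyFn q (rt B n ^ a) (rt B n ^ (a + 1))) (polyFn_mono q _ _) (unif G) (unif_nonneg G)
      ((1 / 2 : ℝ) ^ (rt B n ^ a))
      (fun h hh hle' => graphs_few (rt B n ^ (a + 1)) (rt B n ^ a) M L k q S hw h2w hNq hM hL hk
        hLk herr h hh hle') U φ hφ
      (fun (y : Fin t → Bool) z => (C y).val z (out y))
      (fun y => ⟨C y, out y, (hC y).1, (hC y).2, fun _ => rfl⟩)
      (fun y x hy => (hφf x).mp (hle y _ (fun v hv => by
        obtain ⟨c, hc⟩ := hφ v hv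
        simp only [E, hc, Sum.elim_inr]) hy))
      ((tup G r').filter fun y => E y ∈ A) (fun y hy => hA _ (Finset.mem_filter.mp hy).2)
    rw [Fintype.card_fun, Fintype.card_bool, Fintype.card_fin, Fintype.card_prod, Fintype.card_fin,
      ZMod.card] at hmain
    have h2 := card_le_of_sum hG hA0 hmain
    rw [hcardH]
    refine le_trans ?_ h2
    exact_mod_cast hAcard

theorem main_aux (δ ε : ℝ) (hδ : 0 < δ) (hε : 0 < ε) (hδε : 2 * δ + ε < 1) :
    ∃ L : List Bool → Bool, (∃ c : ℕ, DecidableInTime L (fun n => c * 2 ^ n)) ∧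
      (∀ n : ℕ, Monotone fun x : Fin n → Bool => L (List.ofFn x)) ∧
      ∃ n₀ : ℕ, ∀ n ≥ n₀, ∀ U : Finset (Fin n), (n : ℝ) ^ (2 * δ + ε) ≤ U.card →
        ∃ (ρ : Fin n → Bool) (H : Finset (Fin n → Bool)), H.Nonempty ∧
          (∀ x ∈ H, L (List.ofFn x) = true ∧ ∀ v, v ∉ U → x v = ρ v) ∧
          ∀ (t : ℕ) (C : (Fin t → Bool) → Circuit (Fin n ⊕ Fin n))
            (out : (Fin t → Bool) → Wire (Fin n ⊕ Fin n)),
            (∀ y, (C y).negs = 0 ∧ ((C y).size : ℝ) ≤ 2 ^ ((n : ℝ) ^ δ)) →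
            (∀ y (x : Fin n → Bool), (∀ v, v ∉ U → x v = ρ v) →
              (C y).val (lits x) (out y) = true → L (List.ofFn x) = true) →
            ∀ A ⊆ H, (∀ x ∈ A, ∃ (y : Fin t → Bool) (Z : Finset (Fin n)),
              Z ⊆ U ∧ (∀ v ∈ Z, x v = false) ∧ (C y).val (litsOn U Z x) (out y) = true ∧
                (t : ℝ) + Z.card < U.card / (n : ℝ) ^ (δ + ε)) →
              (A.card : ℝ) ≤ (2 : ℝ) ^ (-(U.card / (n : ℝ) ^ (δ + ε))) * H.card := by
  obtain ⟨a, B, hnum⟩ := nwe_numbers δ ε hδ hε hδε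
  obtain ⟨d, hd1, c, hc⟩ := langA_time a B
  obtain ⟨n₀, hn₀⟩ := hnum d hd1
  refine ⟨_, ⟨c, hc⟩, langA_mono a B d, n₀, fun n hn U hU => ?_⟩
  obtain ⟨M, k, L, hqp, hw, h2w, hNq, hM, hL, hk, hLk, hS, hl2, hnl, hl, hn1, hbig, hfin, herr⟩ :=
    hn₀ n hn
  have : Fact (pq a B n).Prime := ⟨hqp⟩
  set N := rt B n ^ (a + 1) with hN
  set w₀ := rt B n ^ a with hw₀
  set q := pq a B n with hq
  set l := lgc n with hldef
  have hN1 : 1 ≤ N := by omega
  have hq1 : 1 ≤ q := by omega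
  have hn0 : (0 : ℝ) < n := by exact_mod_cast hn1
  set D := 4 * (N * q) * l with hD
  have hDpos : 0 < D := by
    rw [hD]
    have := hqp.pos
    positivity
  have hDU : D ≤ U.card := by
    have h1 : (D : ℝ) ≤ U.card := by
      refine le_trans (le_of_eq ?_) (hbig.trans hU)
      rw [hD, hN]
      push_cast
      ring
    exact_mod_cast h1
  set r' := U.card / D with hr'
  have hr1 : 1 ≤ r' := (Nat.one_le_div_iff hDpos).mpr hDU
  have hrU : r' * D ≤ U.card := Nat.div_mul_le_self _ _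
  have hUn : U.card ≤ n := (Finset.card_le_univ U).trans (by simp)
  have hUr : U.card ≤ r' * (2 * D) := by
    have h1 : U.card < D * (U.card / D + 1) := Nat.lt_mul_div_succ _ hDpos
    have h2 : D * (U.card / D + 1) ≤ D * (2 * r') := Nat.mul_le_mul_left _ (by omega)
    calc U.card ≤ D * (2 * r') := (h1.trans_le h2).le
      _ = r' * (2 * D) := by ring
  set m : ℝ := (U.card : ℝ) / (n : ℝ) ^ (δ + ε) with hm
  have hpow : (0 : ℝ) < (n : ℝ) ^ (δ + ε) := Real.rpow_pos_of_pos hn0 _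
  have hm0 : 0 ≤ m := by positivity
  have hl0 : (0 : ℝ) ≤ l := Nat.cast_nonneg _
  have hl1' : (1 : ℝ) ≤ l := by
    have : 1 ≤ l := by omega
    exact_mod_cast this
  have hml : 2 * (l * m) ≤ w₀ * r' := by
    have h1 : (U.card : ℝ) ≤ r' * (2 * D) := by exact_mod_cast hUr
    have h2 : (16 * (N * q) * l ^ 2 : ℝ) ≤ w₀ * (n : ℝ) ^ (δ + ε) := by
      refine le_trans (le_of_eq ?_) (hfin.trans (le_of_eq ?_))
      · rw [hN]; push_cast; ring
      · rw [hw₀]; push_cast; ring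
    have hDr : (D : ℝ) = 4 * (N * q) * l := by rw [hD]; push_cast; ring
    rw [hDr] at h1
    have hr0 : (0 : ℝ) ≤ r' := Nat.cast_nonneg _
    have h3 : 2 * (l * m) = (2 * l * U.card) / (n : ℝ) ^ (δ + ε) := by
      rw [hm]; ring
    rw [h3, div_le_iff₀ hpow]
    calc 2 * (l : ℝ) * U.card ≤ 2 * l * (r' * (2 * (4 * (N * q) * l))) :=
          mul_le_mul_of_nonneg_left h1 (by positivity)
      _ = r' * (16 * (N * q) * l ^ 2) := by ring
      _ ≤ r' * (w₀ * (n : ℝ) ^ (δ + ε)) := mul_le_mul_of_nonneg_left h2 hr0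
      _ = w₀ * r' * (n : ℝ) ^ (δ + ε) := by ring
  set S := ⌊(2 : ℝ) ^ ((n : ℝ) ^ δ)⌋₊ with hSdef
  have hSle : (S : ℝ) ≤ 2 ^ ((n : ℝ) ^ δ) := Nat.floor_le (by positivity)
  obtain ⟨ρ, H, hH, hHs, hμ⟩ := one_length a B d n q M k L r' S hq hw h2w hNq hM hL hk hLk
    hS hl2 hnl.le hl (herr S hSle) U hrU
  refine ⟨ρ, H, hH, hHs, fun t C out hC hle A hAH hA => ?_⟩
  have hC' : ∀ y, (C y).negs = 0 ∧ (C y).size ≤ S := fun y => ⟨(hC y).1, Nat.le_floor (hC y).2⟩
  set W := ⌈m⌉₊ - 1 with hW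
  have hle' : ∀ z : ℕ, ((t : ℝ) + z < m) → t + z ≤ W := by
    intro z hz
    have h1 : ((t + z : ℕ) : ℝ) < m := by push_cast; exact hz
    have h2 := Nat.lt_ceil.mpr h1
    omega
  rcases lt_or_ge W t with htW | htW
  · -- no guess can be short enough
    have hA0 : A = ∅ := by
      rw [Finset.eq_empty_iff_forall_notMem]
      intro x hx
      obtain ⟨y, Z, -, -, -, hlt⟩ := hA x hx
      have := hle' _ hlt
      omega
    rw [hA0, Finset.card_empty, Nat.cast_zero]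
    positivity
  · refine (hμ t (W - t) C out hC' hle A hAH fun x hx => ?_).trans
      (mul_le_mul_of_nonneg_right ?_ (Nat.cast_nonneg _))
    · obtain ⟨y, Z, h4, h5, h6, h7⟩ := hA x hx
      refine ⟨y, Z, h4, ?_, h5, h6⟩
      have := hle' _ h7
      omega
    rcases Nat.eq_zero_or_pos ⌈m⌉₊ with hc0 | hc0
    · -- `m = 0`
      have hm00 : m = 0 := by
        rw [Nat.ceil_eq_zero] at hc0
        linarith
      have hW0 : W = 0 := by omega
      have ht0 : t = 0 := by omega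
      rw [hm00, hW0, ht0]
      simp only [pow_zero, Nat.cast_one, one_mul, neg_zero, Real.rpow_zero, Nat.sub_zero, mul_one]
      apply pow_le_one₀ (by positivity)
      apply pow_le_one₀ (by norm_num) (by norm_num)
    · have hWm : (W : ℝ) < m := Nat.lt_ceil.mp (by omega)
      have h1 : r' * (N * q) + 1 ≤ 2 ^ l := by
        have h2 : r' * (N * q) ≤ r' * D := by
          apply Nat.mul_le_mul_left
          rw [hD]
          calc N * q = N * q * 1 := (mul_one _).symm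
            _ ≤ N * q * (4 * l) := Nat.mul_le_mul_left _ (by omega)
            _ = 4 * (N * q) * l := by ring
        omega
      have h4 : t + l * (W - t) ≤ l * W := by
        have h5 : l * (W - t) + l * t = l * W := by
          rw [← Nat.mul_add]
          congr 1
          omega
        have h6 : t ≤ l * t := Nat.le_mul_of_pos_left _ (by omega)
        omega
      have h5 : 2 ^ t * (r' * (N * q) + 1) ^ (W - t) ≤ 2 ^ (l * W) := by
        calc 2 ^ t * (r' * (N * q) + 1) ^ (W - t) ≤ 2 ^ t * (2 ^ l) ^ (W - t) :=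
              Nat.mul_le_mul_left _ (Nat.pow_le_pow_left h1 _)
          _ = 2 ^ (t + l * (W - t)) := by rw [pow_add, ← pow_mul]
          _ ≤ 2 ^ (l * W) := Nat.pow_le_pow_right (by norm_num) h4
      have h6 : ((2 ^ t * (r' * (N * q) + 1) ^ (W - t) : ℕ) : ℝ) ≤ (2 : ℝ) ^ ((l : ℝ) * m) := by
        have h7 : ((2 ^ t * (r' * (N * q) + 1) ^ (W - t) : ℕ) : ℝ) ≤ ((2 ^ (l * W) : ℕ) : ℝ) := by
          exact_mod_cast h5
        refine h7.trans ?_
        have h8 : ((2 ^ (l * W) : ℕ) : ℝ) = (2 : ℝ) ^ ((l : ℝ) * W) := by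
          rw [← Nat.cast_mul, Real.rpow_natCast]
          push_cast
          rfl
        rw [h8]
        apply Real.rpow_le_rpow_of_exponent_le (by norm_num)
        exact mul_le_mul_of_nonneg_left hWm.le hl0
      have h7 : ((1 / 2 : ℝ) ^ w₀) ^ r' = (2 : ℝ) ^ (-((w₀ : ℝ) * r')) := by
        rw [← pow_mul, Real.rpow_neg (by norm_num), ← Nat.cast_mul, Real.rpow_natCast, one_div,
          inv_pow]
      rw [h7]
      calc ((2 ^ t * (r' * (N * q) + 1) ^ (W - t) : ℕ) : ℝ) * (2 : ℝ) ^ (-((w₀ : ℝ) * r'))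
          ≤ (2 : ℝ) ^ ((l : ℝ) * m) * (2 : ℝ) ^ (-((w₀ : ℝ) * r')) :=
            mul_le_mul_of_nonneg_right h6 (by positivity)
        _ = (2 : ℝ) ^ ((l : ℝ) * m + -((w₀ : ℝ) * r')) := (Real.rpow_add (by norm_num) _ _).symm
        _ ≤ (2 : ℝ) ^ (-m) := by
            apply Real.rpow_le_rpow_of_exponent_le (by norm_num)
            have h8 : m ≤ l * m := le_mul_of_one_le_left hm0 hl1'
            linarith

/-- **Main theorem.** -/
theorem main (δ ε : ℝ) (hδ : 0 < δ) (hδ' : δ < 1 / 2) (hε : 0 < ε) :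
    ∃ L : List Bool → Bool, (∃ c : ℕ, DecidableInTime L (fun n => c * 2 ^ n)) ∧
      (∀ n : ℕ, Monotone fun x : Fin n → Bool => L (List.ofFn x)) ∧
      ∃ n₀ : ℕ, ∀ n ≥ n₀, ∀ U : Finset (Fin n), (n : ℝ) ^ (2 * δ + ε) ≤ U.card →
        ∃ (ρ : Fin n → Bool) (H : Finset (Fin n → Bool)), H.Nonempty ∧
          (∀ x ∈ H, L (List.ofFn x) = true ∧ ∀ v, v ∉ U → x v = ρ v) ∧
          ∀ (t : ℕ) (C : (Fin t → Bool) → Circuit (Fin n ⊕ Fin n))
            (out : (Fin t → Bool) → Wire (Fin n ⊕ Fin n)),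
            (∀ y, (C y).negs = 0 ∧ ((C y).size : ℝ) ≤ 2 ^ ((n : ℝ) ^ δ)) →
            (∀ y (x : Fin n → Bool), (∀ v, v ∉ U → x v = ρ v) →
              (C y).val (lits x) (out y) = true → L (List.ofFn x) = true) →
            ∀ A ⊆ H, (∀ x ∈ A, ∃ (y : Fin t → Bool) (Z : Finset (Fin n)),
              Z ⊆ U ∧ (∀ v ∈ Z, x v = false) ∧ (C y).val (litsOn U Z x) (out y) = true ∧
                (t : ℝ) + Z.card < U.card / (n : ℝ) ^ (δ + ε)) →
              (A.card : ℝ) ≤ (2 : ℝ) ^ (-(U.card / (n : ℝ) ^ (δ + ε))) * H.card := by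
  have hε' : 0 < min ε ((1 - 2 * δ) / 2) := lt_min hε (by linarith)
  have hle : min ε ((1 - 2 * δ) / 2) ≤ ε := min_le_left _ _
  have hle2 : min ε ((1 - 2 * δ) / 2) ≤ (1 - 2 * δ) / 2 := min_le_right _ _
  obtain ⟨L, hL, hmono, n₀, hn₀⟩ := main_aux δ (min ε ((1 - 2 * δ) / 2)) hδ hε' (by linarith)
  refine ⟨L, hL, hmono, max n₀ 1, fun n hn U hU => ?_⟩
  have hn1 : (1 : ℝ) ≤ n := by
    have : 1 ≤ n := le_of_max_le_right hn
    exact_mod_cast this
  have hn0 : (0 : ℝ) < n := by linarith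
  obtain ⟨ρ, H, h1, h2, h3⟩ := hn₀ n (le_of_max_le_left hn) U
    ((Real.rpow_le_rpow_of_exponent_le hn1 (by linarith)).trans hU)
  have hdiv : (U.card : ℝ) / (n : ℝ) ^ (δ + ε)
      ≤ U.card / (n : ℝ) ^ (δ + min ε ((1 - 2 * δ) / 2)) := by
    apply div_le_div_of_nonneg_left (Nat.cast_nonneg _) (Real.rpow_pos_of_pos hn0 _)
    exact Real.rpow_le_rpow_of_exponent_le hn1 (by linarith)
  refine ⟨ρ, H, h1, h2, fun t C out hC hone A hAH hA => ?_⟩
  refine (h3 t C out hC hone A hAH fun x hx => ?_).trans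
    (mul_le_mul_of_nonneg_right ?_ (Nat.cast_nonneg _))
  · obtain ⟨y, Z, h4, h5, h6, h7⟩ := hA x hx
    exact ⟨y, Z, h4, h5, h6, h7.trans_le hdiv⟩
  · apply Real.rpow_le_rpow_of_exponent_le (by norm_num)
    linarith

end Pool.Agent.NWE
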